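import Pool.Agent.N979.CP.Stm
import Pool.Agent.N526.CP.EIG

/-!
# Part EIG2 of PROJECT CPN2 (helper979): the eigenvalue condition, anisotropic version

(helper901; the proof is that of `Pool/Agent/N526/CP/EIG.lean` by helper507, with a different end.)
-/

set_option autoImplicit false

open MeasureTheory Metric Set Filter Topology InnerProductGeometry Matrix

namespace Pool.Agent.N901.CP.EIG2

open Pool.Agent.H241R3.FV Pool.Agent.N526.CP Pool.Agent.N526.CP.EIG Pool.Agent.N979.CP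

theorem main (hSPH : S_SPH) (_hLZ : S_LZ) : S_EIG2 := by
  intro d hd X hX hG2
  obtain ⟨hP, -, hint⟩ := hSPH d hd
  have := hP
  obtain ⟨s', hs'⟩ : ∃ s', s' = ‖X‖ := ⟨_, rfl⟩
  have h0 : 0 ≤ s' := hs' ▸ norm_nonneg X
  have h1 : s' < 1 := hs' ▸ hX
  rw [← hs'] at hG2
  obtain ⟨pr, pt, hpr, hpt, hsum, hGr, hGt⟩ := hG2
  obtain ⟨e, he, hXe⟩ := ex_unit X
  rw [← hs'] at hXe
  have hipX : ∀ θ, ip X θ = s' * ip e θ := by
    intro θ
    rw [ip, hXe, real_inner_smul_left, ip]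
  have hee : inner ℝ e e = (1 : ℝ) := by
    rw [real_inner_self_eq_norm_sq, he, one_pow]
  have hdR : (0 : ℝ) < d := by exact_mod_cast hd
  -- the second moment
  obtain ⟨b, hb⟩ : ∃ b, b = ∫ θ : Sph (d + 1), (θ : E (d + 1)) 0 ^ 2 ∂(sg (d + 1)) := ⟨_, rfl⟩
  have hcoordI : Integrable (fun θ : Sph (d + 1) => (θ : E (d + 1)) 0 ^ 2) (sg (d + 1)) :=
    integrable_cont ((cont_coord 0).pow 2)
  have hb1 : ∫ θ : Sph (d + 1), (1 - (θ : E (d + 1)) 0 ^ 2) ∂(sg (d + 1)) = 1 - b := by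
    rw [integral_sub (integrable_const _) hcoordI, ← hb]
    simp
  have hbpos : 0 < b ∧ 0 < 1 - b := by
    obtain ⟨e1, he1, he10⟩ : ∃ e1 : E (d + 1), ‖e1‖ = 1 ∧
        inner ℝ e1 (EuclideanSpace.single 0 (1 : ℝ) : E (d + 1)) = (0 : ℝ) := by
      refine ⟨EuclideanSpace.single (Fin.last d) 1, by simp, ?_⟩
      rw [EuclideanSpace.inner_single_left]
      have : (0 : Fin (d + 1)) ≠ Fin.last d := by
        intro h
        have := congrArg Fin.val h
        simp at this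
        omega
      simp [this.symm]
    have hone := hint (fun _ => 1) e1 (EuclideanSpace.single 0 1) (EuclideanSpace.single 0 1) he1
      continuousOn_const
    rw [he10] at hone
    simp only [one_mul, ip_single, mul_zero, sub_zero, add_zero] at hone
    have h2 : ∫ θ : Sph (d + 1), (θ : E (d + 1)) 0 * (θ : E (d + 1)) 0 ∂(sg (d + 1)) = b := by
      rw [hb]
      refine integral_congr_ae (Eventually.of_forall fun θ => ?_)
      beta_reduce
      ring
    rw [h2, hb1, real_inner_self_eq_norm_sq] at hone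
    have h3 : ‖(EuclideanSpace.single 0 1 : E (d + 1))‖ = 1 := by simp
    rw [h3, one_pow, mul_one, eq_div_iff hdR.ne'] at hone
    have h4 : b * (d + 1) = 1 := by linarith
    have h5 : 0 < b := by
      by_contra hcon
      push Not at hcon
      nlinarith
    refine ⟨h5, ?_⟩
    rw [← hone]
    exact mul_pos h5 hdR
  obtain ⟨hb0, hb1'⟩ := hbpos
  have hci := cont_inv (n := d + 1) 0 h0 h1
  have hkr : 0 < kr d s' := by
    refine lt_of_lt_of_le hb0 ?_
    rw [hb, kr]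
    have hcc : Continuous (fun θ : Sph (d + 1) => (θ : E (d + 1)) 0 ^ 2) := by
      fun_prop
    refine integral_mono hcoordI (integrable_cont (hcc.mul hci)) fun θ => ?_
    beta_reduce
    have h2 := one_le_inv h0 h1 (abs_coord_le θ 0)
    have h3 := sq_nonneg ((θ : E (d + 1)) 0)
    nlinarith
  have hkt : 0 < kt d s' := by
    rw [kt]
    refine div_pos (lt_of_lt_of_le hb1' ?_) hdR
    rw [← hb1]
    have hcc : Continuous (fun θ : Sph (d + 1) => (1 : ℝ) - (θ : E (d + 1)) 0 ^ 2) := by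
      fun_prop
    refine integral_mono (integrable_cont hcc) (integrable_cont (hcc.mul hci)) fun θ => ?_
    beta_reduce
    have h2 := one_le_inv h0 h1 (abs_coord_le θ 0)
    have h3 : 0 ≤ 1 - ((θ : E (d + 1)) 0) ^ 2 := by
      have h4 := abs_coord_le θ 0
      rw [← sq_abs]
      nlinarith [abs_nonneg ((θ : E (d + 1)) 0)]
    nlinarith
  -- the bilinear form
  have hcf : ContinuousOn (fun x : ℝ => (√(1 - (s' * x) ^ 2))⁻¹) (Icc (-1) 1) := by
    refine ContinuousOn.inv₀ (by fun_prop) fun x hx => ?_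
    exact (sqrt_pos' h0 h1 (abs_le.mpr hx)).ne'
  have hB : ∀ u v : E (d + 1), ∫ θ, (√(1 - ip X θ ^ 2))⁻¹ * (ip u θ * ip v θ) ∂(sg (d + 1)) =
      kt d s' * (inner ℝ u v - inner ℝ e u * inner ℝ e v) +
        kr d s' * (inner ℝ e u * inner ℝ e v) := by
    intro u v
    have h2 := hint _ e u v he hcf
    have h3 : ∫ θ, (√(1 - ip X θ ^ 2))⁻¹ * (ip u θ * ip v θ) ∂(sg (d + 1)) =
        ∫ θ, (√(1 - (s' * ip e θ) ^ 2))⁻¹ * (ip u θ * ip v θ) ∂(sg (d + 1)) := by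
      refine integral_congr_ae (Eventually.of_forall fun θ => ?_)
      beta_reduce
      rw [hipX]
    rw [h3, h2, kt, kr]
    have h4 : ∀ g : ℝ → ℝ, ∫ θ : Sph (d + 1), g ((θ : E (d + 1)) 0) *
        (1 - (θ : E (d + 1)) 0 ^ 2) ∂(sg (d + 1)) = ∫ θ : Sph (d + 1),
        (1 - (θ : E (d + 1)) 0 ^ 2) * g ((θ : E (d + 1)) 0) ∂(sg (d + 1)) := by
      intro g
      refine integral_congr_ae (Eventually.of_forall fun θ => ?_)
      beta_reduce
      rw [mul_comm]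
    have h5 : ∀ g : ℝ → ℝ, ∫ θ : Sph (d + 1), g ((θ : E (d + 1)) 0) *
        (θ : E (d + 1)) 0 ^ 2 ∂(sg (d + 1)) = ∫ θ : Sph (d + 1),
        (θ : E (d + 1)) 0 ^ 2 * g ((θ : E (d + 1)) 0) ∂(sg (d + 1)) := by
      intro g
      refine integral_congr_ae (Eventually.of_forall fun θ => ?_)
      beta_reduce
      rw [mul_comm]
    rw [h4 (fun x => (√(1 - (s' * x) ^ 2))⁻¹), h5 (fun x => (√(1 - (s' * x) ^ 2))⁻¹)]
  have hDZ : DZ X = Qm e (kt d s') (kr d s') := by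
    ext i j
    have h2 := hB (EuclideanSpace.single i 1) (EuclideanSpace.single j 1)
    have hei : ∀ k : Fin (d + 1), inner ℝ e (EuclideanSpace.single k (1 : ℝ)) = e k := by
      intro k
      rw [EuclideanSpace.inner_single_right]
      simp
    have hij : inner ℝ (EuclideanSpace.single i (1 : ℝ) : E (d + 1))
        (EuclideanSpace.single j (1 : ℝ)) = if i = j then (1 : ℝ) else 0 := by
      rw [EuclideanSpace.inner_single_left]
      simp
    rw [hei, hei, hij] at h2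
    rw [Qm_apply]
    have h3 : DZ X i j = ∫ θ, (√(1 - ip X θ ^ 2))⁻¹ * (ip (EuclideanSpace.single i 1) θ *
        ip (EuclideanSpace.single j 1) θ) ∂(sg (d + 1)) := by
      rw [DZ]
      refine integral_congr_ae (Eventually.of_forall fun θ => ?_)
      beta_reduce
      rw [ip_single, ip_single]
      ring
    rw [h3, h2]
  have hpd : (DZ X).PosDef := by
    rw [hDZ]
    exact Qm_posDef he hkt hkr
  refine ⟨hpd, e, pr, pt, he, hpr, hpt, hsum, ?_⟩
  -- the constant `c`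
  obtain ⟨c, hc⟩ : ∃ c, c = √(1 - ‖X‖ ^ 2) := ⟨_, rfl⟩
  rw [← hc]
  have hr : 0 < 1 - s' ^ 2 := by nlinarith
  have hcpos : 0 < c := by
    rw [hc, ← hs']
    exact Real.sqrt_pos.mpr hr
  have hc2 : c ^ 2 = 1 - s' ^ 2 := by
    rw [hc, ← hs']
    exact Real.sq_sqrt hr.le
  rw [hs', ← hc] at hGr hGt
  rw [← hs'] at hGr hGt
  have hL1 : L1 X = Qm e 1 c⁻¹ := by
    ext i j
    have hXi : ∀ i, X i = s' * e i := by
      intro i
      conv_lhs => rw [hXe]
      rw [PiLp.smul_apply, smul_eq_mul]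
    rw [Qm_apply, L1, ← hc, hXi, hXi]
    have h3 : s' * e i * (s' * e j) / (c * (1 + c)) = (c⁻¹ - 1) * (e i * e j) := by
      have h4 : s' * e i * (s' * e j) = (1 - c ^ 2) * (e i * e j) := by
        rw [hc2]; ring
      rw [h4]
      have h5 : (1 + c) ≠ 0 := by positivity
      field_simp
      ring
    rw [h3]
    ring
  have hinv : (DZ X)⁻¹ = Qm e (kt d s')⁻¹ (kr d s')⁻¹ := by
    apply Matrix.inv_eq_right_inv
    rw [hDZ, Qm_mul he, mul_inv_cancel₀ hkt.ne', mul_inv_cancel₀ hkr.ne', Qm_one]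
  intro v
  rw [hinv, hL1, Qm_mul he, mul_one, cl_Qm]
  obtain ⟨ve, hve⟩ : ∃ ve, ve = inner ℝ e v := ⟨_, rfl⟩
  rw [← hve]
  obtain ⟨y, hy⟩ : ∃ y, y = (kt d s')⁻¹ • (v - ve • e) + ((kr d s')⁻¹ * c⁻¹ * ve) • e := ⟨_, rfl⟩
  rw [← hy]
  have hey : inner ℝ e y = (kr d s')⁻¹ * c⁻¹ * ve := by
    rw [hy, inner_add_right, real_inner_smul_right, real_inner_smul_right, inner_sub_right,
      real_inner_smul_right, hee, ← hve]
    ring
  have hyy : inner ℝ y y = ((kt d s')⁻¹) ^ 2 * (‖v‖ ^ 2 - ve ^ 2) +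
      ((kr d s')⁻¹ * c⁻¹ * ve) ^ 2 := by
    have hev : inner ℝ v e = ve := by rw [hve, real_inner_comm]
    have hvv : inner ℝ v v = ‖v‖ ^ 2 := real_inner_self_eq_norm_sq v
    conv_lhs => rw [hy]
    simp only [inner_add_left, inner_add_right, real_inner_smul_left, real_inner_smul_right,
      inner_sub_left, inner_sub_right, hee, ← hve, hev, hvv]
    ring
  have hcf1 : ContinuousOn (fun x : ℝ => (√(1 - (s' * x) ^ 2)) ^ (d + 1)) (Icc (-1) 1) := by
    fun_prop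
  have hI : ∫ θ, ip y θ ^ 2 * √(1 - ip X θ ^ 2) ^ (d + 1) ∂(sg (d + 1)) =
      At d s' * (inner ℝ y y - inner ℝ e y * inner ℝ e y) +
        Ar d s' * (inner ℝ e y * inner ℝ e y) := by
    have h2 := hint _ e y y he hcf1
    have h3 : ∫ θ, ip y θ ^ 2 * √(1 - ip X θ ^ 2) ^ (d + 1) ∂(sg (d + 1)) =
        ∫ θ, (√(1 - (s' * ip e θ) ^ 2)) ^ (d + 1) * (ip y θ * ip y θ) ∂(sg (d + 1)) := by
      refine integral_congr_ae (Eventually.of_forall fun θ => ?_)
      beta_reduce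
      rw [hipX]
      ring
    rw [h3, h2, At, Ar]
    have h4 : ∀ g : ℝ → ℝ, ∫ θ : Sph (d + 1), g ((θ : E (d + 1)) 0) *
        (1 - (θ : E (d + 1)) 0 ^ 2) ∂(sg (d + 1)) = ∫ θ : Sph (d + 1),
        (1 - (θ : E (d + 1)) 0 ^ 2) * g ((θ : E (d + 1)) 0) ∂(sg (d + 1)) := by
      intro g
      refine integral_congr_ae (Eventually.of_forall fun θ => ?_)
      beta_reduce
      rw [mul_comm]
    have h5 : ∀ g : ℝ → ℝ, ∫ θ : Sph (d + 1), g ((θ : E (d + 1)) 0) *
        (θ : E (d + 1)) 0 ^ 2 ∂(sg (d + 1)) = ∫ θ : Sph (d + 1),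
        (θ : E (d + 1)) 0 ^ 2 * g ((θ : E (d + 1)) 0) ∂(sg (d + 1)) := by
      intro g
      refine integral_congr_ae (Eventually.of_forall fun θ => ?_)
      beta_reduce
      rw [mul_comm]
    rw [h4 (fun x => (√(1 - (s' * x) ^ 2)) ^ (d + 1)), h5 (fun x => (√(1 - (s' * x) ^ 2)) ^ (d + 1))]
  rw [hI, hyy, hey]
  have hcs : 0 ≤ ‖v‖ ^ 2 - ve ^ 2 := by
    have h2 := abs_real_inner_le_norm e v
    rw [he, one_mul, ← hve] at h2
    rw [← sq_abs ve]
    nlinarith [abs_nonneg ve]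
  have hd1 : (1 : ℝ) ≤ d := by exact_mod_cast hd
  have hdp : pt ≤ d * pt := le_mul_of_one_le_left hpt.le hd1
  have hpt1 : 0 < 1 - pt := by linarith
  have hpr1 : 0 < 1 - pr := by linarith
  have ht : At d s' * ((kt d s')⁻¹) ^ 2 ≤ (d + 1) / (1 - pt) * c := by
    rw [div_mul_eq_mul_div, le_div_iff₀ hpt1, inv_pow, ← div_eq_mul_inv, div_mul_eq_mul_div,
      div_le_iff₀ (by positivity)]
    linarith
  have hr' : Ar d s' * ((kr d s')⁻¹ * c⁻¹) ^ 2 ≤ (d + 1) / (1 - pr) * c := by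
    rw [← mul_inv, div_mul_eq_mul_div, le_div_iff₀ hpr1, inv_pow, ← div_eq_mul_inv,
      div_mul_eq_mul_div, div_le_iff₀ (by positivity)]
    calc Ar d s' * (1 - pr) ≤ _ := hGr
      _ = _ := by ring
  have hfin1 := mul_le_mul_of_nonneg_right ht hcs
  have hfin2 := mul_le_mul_of_nonneg_right hr' (sq_nonneg ve)
  calc At d s' * ((kt d s')⁻¹ ^ 2 * (‖v‖ ^ 2 - ve ^ 2) + ((kr d s')⁻¹ * c⁻¹ * ve) ^ 2 -
        (kr d s')⁻¹ * c⁻¹ * ve * ((kr d s')⁻¹ * c⁻¹ * ve)) +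
        Ar d s' * ((kr d s')⁻¹ * c⁻¹ * ve * ((kr d s')⁻¹ * c⁻¹ * ve))
      = At d s' * (kt d s')⁻¹ ^ 2 * (‖v‖ ^ 2 - ve ^ 2) +
        Ar d s' * ((kr d s')⁻¹ * c⁻¹) ^ 2 * ve ^ 2 := by ring
    _ ≤ (d + 1) / (1 - pt) * c * (‖v‖ ^ 2 - ve ^ 2) + (d + 1) / (1 - pr) * c * ve ^ 2 :=
        add_le_add hfin1 hfin2
    _ = c * ((d + 1) / (1 - pt) * (‖v‖ ^ 2 - ve ^ 2) + (d + 1) / (1 - pr) * ve ^ 2) := by ring

end Pool.Agent.N901.CP.EIG2
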