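import Pool.Agent.N661.BR.Base

/-!
# Project BR, part LEVY: the second moment of `QV` for the limit
-/

set_option autoImplicit false
open MeasureTheory Filter Topology Complex ProbabilityTheory
open scoped ContDiff Manifold

namespace Pool.Agent.N901.BRLEVY

open Pool.Agent.N661.BR
open Pool.Agent.W745.RW (lap dx dy TF Dp Dm W Sol Sys)

noncomputable section

lemma cutoff {B : Set ℂ} (hB : IsOpen B) {K : Set ℂ} (hK : IsCompact K) (hKB : K ⊆ B) :
    ∃ ζ : ℂ → ℝ, TF B ζ ∧ (∀ z, 0 ≤ ζ z) ∧ (∀ z, ζ z ≤ 1) ∧ ∀ z ∈ K, ζ z = 1 := by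
  obtain ⟨L, hL, h1, h2⟩ := exists_compact_between hK hB hKB
  obtain ⟨f, hf1, hf2, hf3⟩ := exists_contMDiffMap_one_nhds_of_subset_interior (n := ⊤)
    (𝓘(ℝ, ℂ)) hK.isClosed h1
  refine ⟨f, ⟨f.contMDiff.contDiff, ?_, ?_⟩, fun z => (hf3 z).1, fun z => (hf3 z).2, ?_⟩
  · exact HasCompactSupport.intro hL hf2
  · refine (closure_minimal ?_ hL.isClosed).trans h2
    intro z hz
    by_contra h
    exact hz (hf2 z h)
  · exact fun z hz => hf1.self_of_nhdsSet z hz

lemma TF.integrable {B : Set ℂ} {φ : ℂ → ℝ} (h : TF B φ) : Integrable φ :=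
  h.1.continuous.integrable_of_hasCompactSupport h.2.1

lemma TF.zero_off {B : Set ℂ} {φ : ℂ → ℝ} (h : TF B φ) {z : ℂ} (hz : z ∉ B) : φ z = 0 :=
  image_eq_zero_of_notMem_tsupport fun h' => hz (h.2.2 h')

/-- test functions with mass close to the area -/
lemma cut_vol {Ω : Set ℂ} (hΩ : IsOpen Ω) (hV : volume Ω ≠ ⊤) {ε : ℝ} (hε : 0 < ε) :
    ∃ φ, TF Ω φ ∧ (∀ z, φ z ∈ Set.Icc (0 : ℝ) 1) ∧ volume.real Ω - ε ≤ ∫ z, φ z := by
  obtain ⟨K, hKΩ, hK, hlt⟩ := hΩ.measurableSet.exists_isCompact_lt_add hV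
    (ε := ENNReal.ofReal ε) (by simpa using hε)
  obtain ⟨φ, h1, h2, h3, h4⟩ := cutoff hΩ hK hKΩ
  refine ⟨φ, h1, fun z => ⟨h2 z, h3 z⟩, ?_⟩
  have e1 : volume.real Ω ≤ volume.real K + ε := by
    have hKt : volume K ≠ ⊤ := hK.measure_lt_top.ne
    have := ENNReal.toReal_mono (by simp [hKt]) hlt.le
    rwa [ENNReal.toReal_add hKt ENNReal.ofReal_ne_top, ENNReal.toReal_ofReal hε.le] at this
  have e2 : volume.real K ≤ ∫ z, φ z := by
    have : volume.real K = ∫ z in K, (1 : ℝ) := by simp
    rw [this, ← integral_indicator hK.measurableSet]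
    refine integral_mono ?_ (TF.integrable h1) fun z => ?_
    · exact (integrable_indicator_iff hK.measurableSet).2
        (integrableOn_const hK.measure_lt_top.ne)
    · by_cases hz : z ∈ K
      · simp [hz, h4 z hz]
      · simpa [hz] using h2 z
  linarith

lemma mass_le {Ω : Set ℂ} (hV : volume Ω ≠ ⊤) {φ : ℂ → ℝ} (h : TF Ω φ)
    (h1 : ∀ z, φ z ≤ 1) : ∫ z, φ z ≤ volume.real Ω := by
  have e : ∫ z, φ z = ∫ z in Ω, φ z :=
    (setIntegral_eq_integral_of_forall_compl_eq_zero fun z hz => TF.zero_off h hz).symm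
  have e2 : volume.real Ω = ∫ z in Ω, (1 : ℝ) := by simp
  rw [e, e2]
  refine setIntegral_mono (TF.integrable h).integrableOn ?_ h1
  exact integrableOn_const hV

section vec

variable {k : ℕ}

/-- the vector of real and imaginary parts -/
def vec (x : Fin k → ℂ) : EuclideanSpace ℝ (Fin k ⊕ Fin k) :=
  WithLp.toLp 2 (Sum.elim (fun i => (x i).re) (fun i => (x i).im))

/-- the coefficients of the linear form given by `t` -/
def coef (t : EuclideanSpace ℝ (Fin k ⊕ Fin k)) (i : Fin k) : ℂ :=
  (t (Sum.inl i) : ℂ) - I * (t (Sum.inr i) : ℂ)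

lemma inner_vec (x : Fin k → ℂ) (t : EuclideanSpace ℝ (Fin k ⊕ Fin k)) :
    inner ℝ (vec x) t = (∑ i, coef t i * x i).re := by
  rw [PiLp.inner_apply]
  simp only [Fintype.sum_sum_type, vec, coef, Sum.elim_inl, Sum.elim_inr, Complex.re_sum,
    RCLike.inner_apply, conj_trivial]
  rw [← Finset.sum_add_distrib]
  refine Finset.sum_congr rfl fun i _ => ?_
  simp [Complex.mul_re]

lemma cont_vec : Continuous (vec : (Fin k → ℂ) → EuclideanSpace ℝ (Fin k ⊕ Fin k)) := by
  unfold vec
  refine (PiLp.continuous_toLp 2 _).comp ?_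
  refine continuous_pi fun i => ?_
  rcases i with i | i
  · exact Complex.continuous_re.comp (continuous_apply i)
  · exact Complex.continuous_im.comp (continuous_apply i)

/-- the complex coordinates -/
def co (x : EuclideanSpace ℝ (Fin k ⊕ Fin k)) (i : Fin k) : ℂ :=
  ⟨x (Sum.inl i), x (Sum.inr i)⟩

lemma co_vec (x : Fin k → ℂ) (i : Fin k) : co (vec x) i = x i := by
  unfold co vec
  exact Complex.ext rfl rfl

lemma cont_co (i : Fin k) :
    Continuous (fun x : EuclideanSpace ℝ (Fin k ⊕ Fin k) => co x i) := by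
  have : (fun x : EuclideanSpace ℝ (Fin k ⊕ Fin k) => co x i) =
      fun x => ((x (Sum.inl i) : ℝ) : ℂ) + ((x (Sum.inr i) : ℝ) : ℂ) * I := by
    funext x
    exact (Complex.mk_eq_add_mul_I _ _)
  rw [this]
  fun_prop

end vec

/-- the normalised area -/
def PP (Ω : Set ℂ) : Measure ℂ := (volume Ω)⁻¹ • volume.restrict Ω

lemma PP_prob {Ω : Set ℂ} (h0 : volume Ω ≠ 0) (hV : volume Ω ≠ ⊤) :
    IsProbabilityMeasure (PP Ω) := by
  constructor
  unfold PP
  rw [Measure.smul_apply, Measure.restrict_apply_univ, smul_eq_mul, ENNReal.inv_mul_cancel h0 hV]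

lemma integral_PP {E : Type*} [NormedAddCommGroup E] [NormedSpace ℝ E] (Ω : Set ℂ) (g : ℂ → E) :
    ∫ z, g z ∂(PP Ω) = (1 / volume.real Ω : ℝ) • ∫ z in Ω, g z := by
  unfold PP
  rw [integral_smul_measure, ENNReal.toReal_inv, one_div]
  rfl

lemma W_contOn {Ω : Set ℂ} (hΩ : IsOpen Ω) {h : ℝ} {u : ℂ → ℝ} (hS : Sol Ω h u) (a : ℤ) :
    ContinuousOn (W h u a) Ω :=
  ((Pool.Agent.W924.RW.WP.main Ω hΩ h u hS).1 a).continuousOn

/-- convergence in law of the vectors `(W_{a i} (u_n) (z))_i`, `z` uniform in `Ω` -/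
lemma law_conv {Ω : Set ℂ} (hΩ : IsOpen Ω) (h0 : volume Ω ≠ 0) (hV : volume Ω ≠ ⊤)
    {h : ℕ → ℝ} {u : ℕ → ℂ → ℝ} (hS : ∀ n, Sol Ω (h n) (u n)) {μ : Measure MW}
    [IsProbabilityMeasure μ] {k : ℕ} (a : Fin k → ℤ)
    (hA : ∀ c : Fin k → ℂ, Apx Ω (volume.real Ω) h u μ c a (fun _ => 0))
    (g : BoundedContinuousFunction (EuclideanSpace ℝ (Fin k ⊕ Fin k)) ℝ) :
    Tendsto (fun n => 1 / volume.real Ω * ∫ z in Ω, g (vec fun i => W (h n) (u n) (a i) z))
      atTop (𝓝 (∫ f : MW, g (vec fun i => W 1 f (a i) 0) ∂μ)) := by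
  have hVpos : 0 < volume.real Ω := ENNReal.toReal_pos h0 hV
  have := PP_prob h0 hV
  set X : ℕ → ℂ → EuclideanSpace ℝ (Fin k ⊕ Fin k) :=
    fun n z => vec fun i => W (h n) (u n) (a i) z with hX
  set Y : MW → EuclideanSpace ℝ (Fin k ⊕ Fin k) := fun f => vec fun i => W 1 f (a i) 0 with hY
  have hXm : ∀ n, AEMeasurable (X n) (PP Ω) := by
    intro n
    have : ContinuousOn (X n) Ω :=
      cont_vec.comp_continuousOn (continuousOn_pi.2 fun i => W_contOn hΩ (hS n) (a i))
    exact (this.aemeasurable hΩ.measurableSet).smul_measure _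
  have hYm : Measurable Y :=
    cont_vec.measurable.comp (measurable_pi_lambda _ fun i => meas_W (a i) 0)
  let Pn : ℕ → ProbabilityMeasure (EuclideanSpace ℝ (Fin k ⊕ Fin k)) := fun n =>
    ⟨(PP Ω).map (X n), Measure.isProbabilityMeasure_map (hXm n)⟩
  let P0 : ProbabilityMeasure (EuclideanSpace ℝ (Fin k ⊕ Fin k)) :=
    ⟨μ.map Y, Measure.isProbabilityMeasure_map hYm.aemeasurable⟩
  have key : Tendsto Pn atTop (𝓝 P0) := by
    refine ProbabilityMeasure.tendsto_of_tendsto_charFun fun t => ?_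
    have e1 : ∀ n, charFun (Pn n : Measure _) t = (1 / volume.real Ω : ℝ) •
        ∫ z in Ω, Complex.exp
          (I * (((∑ j, coef t j * W (h n) (u n) (a j) z).re : ℝ) : ℂ)) := by
      intro n
      change charFun ((PP Ω).map (X n)) t = _
      rw [charFun_apply, integral_map (hXm n) (by fun_prop), integral_PP]
      congr 1
      refine integral_congr_ae (Eventually.of_forall fun z => ?_)
      simp only [hX]
      rw [inner_vec, mul_comm]
    have e2 : charFun (P0 : Measure _) t = ∫ f : MW, Complex.exp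
        (I * (((∑ j, coef t j * W 1 f (a j) 0).re : ℝ) : ℂ)) ∂μ := by
      change charFun (μ.map Y) t = _
      rw [charFun_apply, integral_map hYm.aemeasurable (by fun_prop)]
      refine integral_congr_ae (Eventually.of_forall fun f => ?_)
      simp only [hY]
      rw [inner_vec, mul_comm]
    rw [e2]
    simp_rw [e1]
    rw [Metric.tendsto_atTop']
    intro ε hε
    obtain ⟨φ, hφ, hφ1, hφ2⟩ := cut_vol hΩ hV (ε := ε / 4 * volume.real Ω) (by positivity)
    have hr : 1 - (∫ z, φ z) / volume.real Ω ≤ ε / 4 := by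
      rw [sub_le_iff_le_add, ← sub_le_iff_le_add', le_div_iff₀ hVpos]
      linarith
    obtain ⟨N, hN⟩ := eventually_atTop.1 (hA (coef t) φ hφ hφ1 (ε / 4) (by positivity))
    refine ⟨N, fun n hn => ?_⟩
    have h1 := hN n hn.le
    simp only [mul_zero, add_zero] at h1
    set E : ℂ → ℂ := fun z =>
      Complex.exp (I * (((∑ j, coef t j * W (h n) (u n) (a j) z).re : ℝ) : ℂ)) with hE
    have hE1 : ∀ z, ‖E z‖ = 1 := by
      intro z
      rw [hE]
      simp only
      rw [mul_comm]
      exact Complex.norm_exp_ofReal_mul_I _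
    have hEc : ContinuousOn E Ω := by
      have : ContinuousOn (fun z => ∑ j, coef t j * W (h n) (u n) (a j) z) Ω :=
        continuousOn_finsetSum _ fun j _ => continuousOn_const.mul (W_contOn hΩ (hS n) (a j))
      rw [hE]
      exact Complex.continuous_exp.comp_continuousOn (continuousOn_const.mul
        (Complex.continuous_ofReal.comp_continuousOn
          (Complex.continuous_re.comp_continuousOn this)))
    have hEm : AEStronglyMeasurable E (volume.restrict Ω) :=
      hEc.aestronglyMeasurable hΩ.measurableSet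
    have : IsFiniteMeasure (volume.restrict Ω) := ⟨by
      rw [Measure.restrict_apply_univ]; exact lt_top_iff_ne_top.2 hV⟩
    have hEi : Integrable E (volume.restrict Ω) :=
      Integrable.of_bound hEm 1 (Eventually.of_forall fun z => (hE1 z).le)
    have hφi : Integrable φ (volume.restrict Ω) := (TF.integrable hφ).restrict
    have hφE : Integrable (fun z => (φ z : ℂ) * E z) (volume.restrict Ω) := by
      have := hEi.bdd_mul (c := 1) (f := fun z => (φ z : ℂ))
        (Complex.continuous_ofReal.comp hφ.1.continuous).aestronglyMeasurable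
        (Eventually.of_forall fun z => by
          rw [Complex.norm_real, Real.norm_eq_abs, abs_of_nonneg (hφ1 z).1]
          exact (hφ1 z).2)
      exact this
    have h2 : ∫ z, (φ z : ℂ) * E z = ∫ z in Ω, (φ z : ℂ) * E z :=
      (setIntegral_eq_integral_of_forall_compl_eq_zero fun z hz => by
        rw [TF.zero_off hφ hz]; simp).symm
    rw [h2] at h1
    have h3 : ‖(∫ z in Ω, E z) - ∫ z in Ω, (φ z : ℂ) * E z‖ ≤
        volume.real Ω - ∫ z, φ z := by
      rw [← integral_sub hEi hφE]
      have h4 : ∫ z in Ω, φ z = ∫ z, φ z :=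
        setIntegral_eq_integral_of_forall_compl_eq_zero fun z hz => TF.zero_off hφ hz
      have h5 : volume.real Ω - ∫ z, φ z = ∫ z in Ω, (1 - φ z) := by
        rw [integral_sub (integrable_const _) hφi, h4]
        simp
      rw [h5]
      refine norm_integral_le_of_norm_le ((integrable_const _).sub hφi)
        (Eventually.of_forall fun z => ?_)
      have : E z - (φ z : ℂ) * E z = ((1 - φ z : ℝ) : ℂ) * E z := by push_cast; ring
      rw [this, norm_mul, hE1, mul_one, Complex.norm_real, Real.norm_eq_abs,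
        abs_of_nonneg (by linarith [(hφ1 z).2])]
    rw [dist_eq_norm]
    have h6 : (1 / volume.real Ω : ℝ) • (∫ z in Ω, E z) -
        ∫ f : MW, Complex.exp (I * (((∑ j, coef t j * W 1 f (a j) 0).re : ℝ) : ℂ)) ∂μ =
        ((1 / volume.real Ω : ℝ) : ℂ) * ((∫ z in Ω, E z) - ∫ z in Ω, (φ z : ℂ) * E z) +
        (((1 / volume.real Ω : ℝ) : ℂ) * (∫ z in Ω, (φ z : ℂ) * E z) -
        ∫ f : MW, Complex.exp (I * (((∑ j, coef t j * W 1 f (a j) 0).re : ℝ) : ℂ)) ∂μ) := by
      rw [Complex.real_smul]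
      ring
    rw [h6]
    refine lt_of_le_of_lt (norm_add_le _ _) ?_
    have h7 : ‖((1 / volume.real Ω : ℝ) : ℂ) *
        ((∫ z in Ω, E z) - ∫ z in Ω, (φ z : ℂ) * E z)‖ ≤ 1 - (∫ z, φ z) / volume.real Ω := by
      rw [norm_mul, Complex.norm_real, Real.norm_eq_abs, abs_of_pos (by positivity)]
      calc 1 / volume.real Ω * ‖(∫ z in Ω, E z) - ∫ z in Ω, (φ z : ℂ) * E z‖
          ≤ 1 / volume.real Ω * (volume.real Ω - ∫ z, φ z) := by gcongr
        _ = 1 - (∫ z, φ z) / volume.real Ω := by field_simp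
    linarith
  have h8 := (ProbabilityMeasure.tendsto_iff_forall_integral_tendsto.1 key) g
  have e3 : ∀ n, ∫ x, g x ∂(Pn n : Measure _) =
      1 / volume.real Ω * ∫ z in Ω, g (vec fun i => W (h n) (u n) (a i) z) := by
    intro n
    change ∫ x, g x ∂((PP Ω).map (X n)) = _
    rw [integral_map (hXm n) (by fun_prop), integral_PP]
    rfl
  have e4 : ∫ x, g x ∂(P0 : Measure _) = ∫ f : MW, g (vec fun i => W 1 f (a i) 0) ∂μ := by
    change ∫ x, g x ∂(μ.map Y) = _
    rw [integral_map hYm.aemeasurable (by fun_prop)]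
  rw [e4] at h8
  exact h8.congr e3

theorem LEVY : S_QUART → S_LEVY := by
  intro hQ Ω hΩ hb hne h u hS μ hμ hA v hv l
  have h0 : volume Ω ≠ 0 := (hΩ.measure_pos volume hne).ne'
  have hV : volume Ω ≠ ⊤ := hb.measure_lt_top.ne
  have hVpos : 0 < volume.real Ω := ENNReal.toReal_pos h0 hV
  -- enumeration of the indices
  set s := v.support with hs
  let e : Fin s.card ≃ s := s.equivFin.symm
  let a : Fin (s.card + s.card) → ℤ :=
    Fin.append (fun i => ((e i : s) : ℤ)) (fun i => 2 * l - ((e i : s) : ℤ))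
  let Q : EuclideanSpace ℝ (Fin (s.card + s.card) ⊕ Fin (s.card + s.card)) → ℂ := fun x =>
    ∑ i : Fin s.card, (v (e i) : ℂ) * (co x (Fin.castAdd _ i) * co x (Fin.natAdd _ i))
  have hQc : Continuous Q := continuous_finsetSum _ fun i _ =>
    continuous_const.mul ((cont_co _).mul (cont_co _))
  have hQV : ∀ (r : ℝ) (w : ℂ → ℝ) (z : ℂ), Q (vec fun i => W r w (a i) z) = QV v l r w z := by
    intro r w z
    simp only [Q, co_vec, a, Fin.append_left, Fin.append_right, QV]
    rw [← hs, ← Finset.sum_coe_sort s (fun j => (v j : ℂ) * (W r w j z * W r w (2 * l - j) z))]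
    exact Equiv.sum_comp e
      (fun j : s => (v (j : ℤ) : ℂ) * (W r w (j : ℤ) z * W r w (2 * l - (j : ℤ)) z))
  -- continuity of `QV`
  have hQVc : ∀ n, ContinuousOn (fun z => QV v l (h n) (u n) z) Ω := by
    intro n
    refine continuousOn_finsetSum _ fun j _ => continuousOn_const.mul ?_
    exact (W_contOn hΩ (hS.sol n) j).mul (W_contOn hΩ (hS.sol n) _)
  -- the bound with truncation
  have key : ∀ T : ℝ, 0 ≤ T → ∫ f : MW, min (‖QV v l 1 f 0‖ ^ 2) T ∂μ ≤ KV v l := by
    intro T hT
    have hgc : Continuous fun x => min (‖Q x‖ ^ 2) T := by fun_prop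
    let g : BoundedContinuousFunction
        (EuclideanSpace ℝ (Fin (s.card + s.card) ⊕ Fin (s.card + s.card))) ℝ :=
      BoundedContinuousFunction.ofNormedAddCommGroup (fun x => min (‖Q x‖ ^ 2) T) hgc T
        (fun x => by
          rw [Real.norm_eq_abs, abs_of_nonneg (le_min (by positivity) hT)]
          exact min_le_right _ _)
    have hlim := law_conv hΩ h0 hV hS.sol a (fun c => hA _ c a (fun _ => 0)) g
    have hg1 : ∀ (r : ℝ) (w : ℂ → ℝ) (z : ℂ), g (vec fun i => W r w (a i) z) =
        min (‖QV v l r w z‖ ^ 2) T := by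
      intro r w z
      change min (‖Q (vec fun i => W r w (a i) z)‖ ^ 2) T = _
      rw [hQV]
    simp only [hg1] at hlim
    refine le_of_forall_pos_le_add fun ε hε => ?_
    set δ : ℝ := ε / (|KV v l| + T + 1) with hδ
    have hδpos : 0 < δ := by positivity
    obtain ⟨φ, hφ, hφ1, hφ2⟩ := cut_vol hΩ hV (ε := δ * volume.real Ω) (by positivity)
    have hm := mass_le hV hφ (fun z => (hφ1 z).2)
    have hr : 1 - (∫ z, φ z) / volume.real Ω ≤ δ := by
      rw [sub_le_iff_le_add, ← sub_le_iff_le_add', le_div_iff₀ hVpos]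
      linarith
    have hr0 : 0 ≤ 1 - (∫ z, φ z) / volume.real Ω := by
      rw [sub_nonneg, div_le_one hVpos]
      exact hm
    have hq := hQ Ω hΩ h u hS φ hφ (fun z => (hφ1 z).1) v hv l
    have hfin : IsFiniteMeasure (volume.restrict Ω) := ⟨by
      rw [Measure.restrict_apply_univ]; exact lt_top_iff_ne_top.2 hV⟩
    have hφi : Integrable φ (volume.restrict Ω) := (TF.integrable hφ).restrict
    have hb2 : ∀ n, 1 / volume.real Ω * ∫ z in Ω, min (‖QV v l (h n) (u n) z‖ ^ 2) T ≤
        1 / volume.real Ω * (∫ z, φ z * ‖QV v l (h n) (u n) z‖ ^ 2) +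
          T * (1 - (∫ z, φ z) / volume.real Ω) := by
      intro n
      have hc : Continuous (fun z => φ z * ‖QV v l (h n) (u n) z‖ ^ 2) := by
        refine continuous_of_tsupport fun z hz => ?_
        have hz1 : z ∈ tsupport φ := tsupport_mul_subset_left hz
        have hz2 : z ∈ Ω := hφ.2.2 hz1
        exact hφ.1.continuous.continuousAt.mul
          (((hQVc n).continuousAt (hΩ.mem_nhds hz2)).norm.pow 2)
      have hcs : HasCompactSupport (fun z => φ z * ‖QV v l (h n) (u n) z‖ ^ 2) :=
        hφ.2.1.mul_right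
      have hi : Integrable (fun z => φ z * ‖QV v l (h n) (u n) z‖ ^ 2) :=
        hc.integrable_of_hasCompactSupport hcs
      have e1 : ∫ z, φ z * ‖QV v l (h n) (u n) z‖ ^ 2 =
          ∫ z in Ω, φ z * ‖QV v l (h n) (u n) z‖ ^ 2 :=
        (setIntegral_eq_integral_of_forall_compl_eq_zero fun z hz => by
          rw [TF.zero_off hφ hz]; simp).symm
      have e2 : T * (1 - (∫ z, φ z) / volume.real Ω) =
          1 / volume.real Ω * ∫ z in Ω, (1 - φ z) * T := by
        rw [integral_mul_const, integral_sub (integrable_const _) hφi,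
          setIntegral_eq_integral_of_forall_compl_eq_zero fun z hz => TF.zero_off hφ hz]
        simp only [integral_const, smul_eq_mul, mul_one, measureReal_restrict_apply_univ]
        field_simp
      have hi2 : Integrable (fun z => (1 - φ z) * T) (volume.restrict Ω) :=
        ((integrable_const _).sub hφi).mul_const _
      rw [e1, e2, ← mul_add, ← integral_add hi.restrict hi2]
      refine mul_le_mul_of_nonneg_left ?_ (by positivity)
      refine integral_mono_of_nonneg (Eventually.of_forall fun z => ?_)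
        (hi.restrict.add hi2) (Eventually.of_forall fun z => ?_)
      · exact le_min (by positivity) hT
      · have h1 := (hφ1 z).1
        have h2 := (hφ1 z).2
        have h3 := min_le_left (‖QV v l (h n) (u n) z‖ ^ 2) T
        have h4 := min_le_right (‖QV v l (h n) (u n) z‖ ^ 2) T
        simp only
        nlinarith
    have hlim2 : Tendsto (fun n => 1 / volume.real Ω * (∫ z, φ z * ‖QV v l (h n) (u n) z‖ ^ 2) +
          T * (1 - (∫ z, φ z) / volume.real Ω)) atTop
        (𝓝 (1 / volume.real Ω * (KV v l * ∫ z, φ z) +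
          T * (1 - (∫ z, φ z) / volume.real Ω))) :=
      (hq.const_mul _).add_const _
    have hfinal := le_of_tendsto_of_tendsto' hlim hlim2 hb2
    refine hfinal.trans ?_
    have e3 : 1 / volume.real Ω * (KV v l * ∫ z, φ z) =
        KV v l - KV v l * (1 - (∫ z, φ z) / volume.real Ω) := by
      field_simp
      ring
    rw [e3]
    have h5 : -(KV v l * (1 - (∫ z, φ z) / volume.real Ω)) ≤ |KV v l| * δ := by
      calc -(KV v l * (1 - (∫ z, φ z) / volume.real Ω))
          ≤ |KV v l| * (1 - (∫ z, φ z) / volume.real Ω) := by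
            rw [← neg_mul]
            exact mul_le_mul_of_nonneg_right (neg_le_abs _) hr0
        _ ≤ |KV v l| * δ := mul_le_mul_of_nonneg_left hr (abs_nonneg _)
    have h6 : T * (1 - (∫ z, φ z) / volume.real Ω) ≤ T * δ := mul_le_mul_of_nonneg_left hr hT
    have h7 : (|KV v l| + T) * δ ≤ ε := by
      rw [hδ, mul_div_assoc', div_le_iff₀ (by positivity)]
      nlinarith [abs_nonneg (KV v l)]
    nlinarith
  -- remove the truncation
  have hmeas : Measurable fun f : MW => ‖QV v l 1 f 0‖ ^ 2 := by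
    unfold QV
    refine (Measurable.norm ?_).pow_const 2
    refine Finset.measurable_sum _ fun j _ => ?_
    exact ((meas_W j 0).mul (meas_W (2 * l - j) 0)).const_mul _
  have hlim := lintegral_tendsto_of_tendsto_of_monotone (μ := μ)
    (f := fun (n : ℕ) (f : MW) => ENNReal.ofReal (min (‖QV v l 1 f 0‖ ^ 2) (n : ℝ)))
    (F := fun f : MW => ENNReal.ofReal (‖QV v l 1 f 0‖ ^ 2))
    (fun n => (hmeas.min measurable_const).ennreal_ofReal.aemeasurable)
    (Eventually.of_forall fun f => fun m n hmn =>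
      ENNReal.ofReal_le_ofReal (min_le_min le_rfl (by exact_mod_cast hmn)))
    (Eventually.of_forall fun f => by
      refine tendsto_const_nhds.congr' ?_
      obtain ⟨N, hN⟩ := exists_nat_ge (‖QV v l 1 f 0‖ ^ 2)
      filter_upwards [eventually_ge_atTop N] with n hn
      rw [min_eq_left (hN.trans (by exact_mod_cast hn))])
  refine le_of_tendsto' hlim fun n => ?_
  rw [← ofReal_integral_eq_lintegral_ofReal]
  · exact ENNReal.ofReal_le_ofReal (key n (Nat.cast_nonneg n))
  · refine Integrable.of_bound (hmeas.min measurable_const).aestronglyMeasurable (n : ℝ)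
      (Eventually.of_forall fun f => ?_)
    rw [Real.norm_eq_abs, abs_of_nonneg (le_min (by positivity) (Nat.cast_nonneg n))]
    exact min_le_right _ _
  · exact Eventually.of_forall fun f => le_min (by positivity) (Nat.cast_nonneg n)

end

end Pool.Agent.N901.BRLEVY
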