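import Pool.Agent.N795.PI.Stm2

set_option autoImplicit false

/-!
# The one dimensional monotonicity argument from a given radius on (project PI, piece ODES)
-/

namespace Pool.Agent.N795.PI

open Filter Topology MeasureTheory

namespace N901OdeS

lemma d1 {f : ℝ → ℝ} (hf : SmoothRad f) {t : ℝ} (ht : 0 < t) : HasDerivAt f (deriv f t) t :=
  ((hf t ht).2.differentiableAt (by norm_num)).hasDerivAt

lemma d2 {f : ℝ → ℝ} (hf : SmoothRad f) {t : ℝ} (ht : 0 < t) :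
    HasDerivAt (deriv f) (deriv (deriv f) t) t := by
  have h2 : ContDiffAt ℝ 1 (fderiv ℝ f) t :=
    (hf t ht).2.fderiv_right (m := 1) (by norm_num)
  have h3 : DifferentiableAt ℝ (fderiv ℝ f) t := h2.differentiableAt (by norm_num)
  have h4 : DifferentiableAt ℝ (fun t => fderiv ℝ f t 1) t :=
    h3.clm_apply (differentiableAt_const _)
  exact h4.hasDerivAt

lemma dr {f : ℝ → ℝ} (hf : SmoothRad f) {t : ℝ} (ht : 0 < t) :
    HasDerivAt (fun t => t * f t ^ 2) (f t ^ 2 + t * (2 * f t * deriv f t)) t := by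
  have h := (hasDerivAt_id t).mul ((d1 hf ht).pow 2)
  refine h.congr_deriv ?_
  simp only [id_eq, Nat.cast_ofNat]
  norm_num

lemma dw {f : ℝ → ℝ} (hf : SmoothRad f) {t : ℝ} (ht : 0 < t) :
    HasDerivAt (ww f) (2 * deriv f t / f t + 2 * t * deriv (deriv f) t / f t
      - 2 * t * deriv f t ^ 2 / f t ^ 2) t := by
  have hft := (hf t ht).1.ne'
  have h := ((((hasDerivAt_id t).const_mul 2).mul (d2 hf ht)).div (d1 hf ht) hft).const_add 1
  refine h.congr_deriv ?_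
  simp only [id_eq, Pi.mul_apply]
  field_simp

/-- Hawking mass -/
noncomputable def MM (f p : ℝ → ℝ) (t : ℝ) : ℝ :=
  t * f t ^ 2 / 2 * (1 - ww f t ^ 2 + (t * f t ^ 2) ^ 2 * p t ^ 2 / 4)

lemma dM {f p : ℝ → ℝ} (hf : SmoothRad f) {t : ℝ} (ht : 0 < t) (hp : DifferentiableAt ℝ p t) :
    HasDerivAt (MM f p)
      ((f t ^ 2 + t * (2 * f t * deriv f t)) / 2 *
        (1 - ww f t ^ 2 + (t * f t ^ 2) ^ 2 * p t ^ 2 / 4) +
      t * f t ^ 2 / 2 * (-(2 * ww f t * (2 * deriv f t / f t + 2 * t * deriv (deriv f) t / f t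
        - 2 * t * deriv f t ^ 2 / f t ^ 2)) +
        (2 * (t * f t ^ 2) * (f t ^ 2 + t * (2 * f t * deriv f t)) * p t ^ 2 +
          (t * f t ^ 2) ^ 2 * (2 * p t * deriv p t)) / 4)) t := by
  have h1 := dr hf ht
  have h2 := dw hf ht
  have h3 := hp.hasDerivAt
  have h4 := (h1.div_const 2).mul (((h2.pow 2).const_sub 1).add
    (((h1.pow 2).mul (h3.pow 2)).div_const 4))
  refine h4.congr_deriv ?_
  simp only [Pi.add_apply, Pi.mul_apply, Pi.pow_apply]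
  norm_num

lemma ineq (t F f1 f2 P P1 q μ Jn : ℝ) (ht : 0 < t) (hF : 0 < F) (h1 : |Jn| ≤ μ)
    (h2 : 2 * μ ≤ -8 * (f2 + 2 * f1 / t) / F ^ 5 + 2 * q * P + P ^ 2 / 2)
    (h3 : 0 ≤ P * (P1 - ((2 * q - P) * (1 / t + 2 * f1 / F) - F ^ 2 * Jn)))
    (h4 : t * F ^ 2 * |P| < 2 * (1 + 2 * t * f1 / F)) :
    0 ≤ (F ^ 2 + t * (2 * F * f1)) / 2 *
        (1 - (1 + 2 * t * f1 / F) ^ 2 + (t * F ^ 2) ^ 2 * P ^ 2 / 4) +
      t * F ^ 2 / 2 * (-(2 * (1 + 2 * t * f1 / F) * (2 * f1 / F + 2 * t * f2 / F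
        - 2 * t * f1 ^ 2 / F ^ 2)) +
        (2 * (t * F ^ 2) * (F ^ 2 + t * (2 * F * f1)) * P ^ 2 +
          (t * F ^ 2) ^ 2 * (2 * P * P1)) / 4) := by
  have hμ : 0 ≤ μ := (abs_nonneg _).trans h1
  have hr : 0 < t * F ^ 2 := by positivity
  have hw : 0 < 1 + 2 * t * f1 / F := by
    have : 0 ≤ t * F ^ 2 * |P| := by positivity
    linarith
  have e1 : 0 ≤ F ^ 2 * ((t * F ^ 2) ^ 2 * (1 + 2 * t * f1 / F) / 4) *
      (-8 * (f2 + 2 * f1 / t) / F ^ 5 + 2 * q * P + P ^ 2 / 2 - 2 * μ) :=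
    mul_nonneg (by positivity) (by linarith)
  have e2 : 0 ≤ (t * F ^ 2) ^ 3 / 4 *
      (P * (P1 - ((2 * q - P) * (1 / t + 2 * f1 / F) - F ^ 2 * Jn))) :=
    mul_nonneg (by positivity) h3
  have e3 : 0 ≤ F ^ 2 * (t * F ^ 2) ^ 2 / 4 *
      (2 * (1 + 2 * t * f1 / F) * μ - (t * F ^ 2) * (P * Jn)) := by
    refine mul_nonneg (by positivity) ?_
    have a1 : P * Jn ≤ |P| * μ := by
      calc P * Jn ≤ |P * Jn| := le_abs_self _
        _ = |P| * |Jn| := abs_mul _ _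
        _ ≤ |P| * μ := mul_le_mul_of_nonneg_left h1 (abs_nonneg _)
    have a2 : (t * F ^ 2) * (P * Jn) ≤ (t * F ^ 2) * (|P| * μ) :=
      mul_le_mul_of_nonneg_left a1 hr.le
    have a3 : (t * F ^ 2 * |P|) * μ ≤ (2 * (1 + 2 * t * f1 / F)) * μ :=
      mul_le_mul_of_nonneg_right h4.le hμ
    linarith
  have e4 : (F ^ 2 + t * (2 * F * f1)) / 2 *
        (1 - (1 + 2 * t * f1 / F) ^ 2 + (t * F ^ 2) ^ 2 * P ^ 2 / 4) +
      t * F ^ 2 / 2 * (-(2 * (1 + 2 * t * f1 / F) * (2 * f1 / F + 2 * t * f2 / F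
        - 2 * t * f1 ^ 2 / F ^ 2)) +
        (2 * (t * F ^ 2) * (F ^ 2 + t * (2 * F * f1)) * P ^ 2 +
          (t * F ^ 2) ^ 2 * (2 * P * P1)) / 4) =
      F ^ 2 * ((t * F ^ 2) ^ 2 * (1 + 2 * t * f1 / F) / 4) *
      (-8 * (f2 + 2 * f1 / t) / F ^ 5 + 2 * q * P + P ^ 2 / 2 - 2 * μ) +
      (t * F ^ 2) ^ 3 / 4 *
      (P * (P1 - ((2 * q - P) * (1 / t + 2 * f1 / F) - F ^ 2 * Jn))) +
      F ^ 2 * (t * F ^ 2) ^ 2 / 4 *
      (2 * (1 + 2 * t * f1 / F) * μ - (t * F ^ 2) * (P * Jn)) := by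
    field_simp
    ring
  rw [e4]
  linarith

lemma limW {f : ℝ → ℝ} {m : ℝ} (hf : SmoothRad f) (h1 : Tendsto f atTop (𝓝 1))
    (h2 : Tendsto (fun t => -2 * t ^ 2 * f t ^ 3 * deriv f t) atTop (𝓝 m)) :
    Tendsto (ww f) atTop (𝓝 1) := by
  have h3 : Tendsto (fun t : ℝ => t⁻¹) atTop (𝓝 0) := tendsto_inv_atTop_zero
  have h4 : Tendsto (fun t => 1 - (-2 * t ^ 2 * f t ^ 3 * deriv f t) * (t⁻¹ * (f t ^ 4)⁻¹)) atTop
      (𝓝 (1 - m * (0 * (1 ^ 4)⁻¹))) :=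
    (h2.mul (h3.mul ((h1.pow 4).inv₀ (by norm_num)))).const_sub 1
  have h5 : (1 : ℝ) - m * (0 * (1 ^ 4)⁻¹) = 1 := by ring
  rw [h5] at h4
  refine h4.congr' ?_
  filter_upwards [eventually_gt_atTop 0] with t ht
  have hft := (hf t ht).1.ne'
  unfold ww
  field_simp
  ring

lemma limM {f p : ℝ → ℝ} {m : ℝ} (hf : SmoothRad f) (h1 : Tendsto f atTop (𝓝 1))
    (h2 : Tendsto (fun t => -2 * t ^ 2 * f t ^ 3 * deriv f t) atTop (𝓝 m))
    (h3 : Tendsto (fun t => t ^ 3 * p t ^ 2) atTop (𝓝 0)) :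
    Tendsto (MM f p) atTop (𝓝 m) := by
  have hw := limW hf h1 h2
  have h4 : Tendsto (fun t => (-2 * t ^ 2 * f t ^ 3 * deriv f t) * ((f t ^ 2)⁻¹ / 2) * (1 + ww f t) +
      (t ^ 3 * p t ^ 2) * (f t ^ 6 / 8)) atTop
      (𝓝 (m * ((1 ^ 2)⁻¹ / 2) * (1 + 1) + 0 * (1 ^ 6 / 8))) :=
    ((h2.mul (((h1.pow 2).inv₀ (by norm_num)).div_const 2)).mul (hw.const_add 1)).add
      (h3.mul ((h1.pow 6).div_const 8))
  have h5 : m * (((1 : ℝ) ^ 2)⁻¹ / 2) * (1 + 1) + 0 * (1 ^ 6 / 8) = m := by ring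
  rw [h5] at h4
  refine h4.congr' ?_
  filter_upwards [eventually_gt_atTop 0] with t ht
  have hft := (hf t ht).1.ne'
  unfold MM ww
  field_simp
  ring

end N901OdeS

open N901OdeS in
/-- **The one dimensional argument from a given radius on.** -/
theorem odes_pf : OdeS := by
  intro f p m t1 hf ht1 hp hdec h1 h2 h3 htr hgt
  have hmono : MonotoneOn (MM f p) (Set.Ici t1) := by
    refine monotoneOn_of_deriv_nonneg (convex_Ici t1) ?_ ?_ ?_
    · intro t ht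
      have ht0 : 0 < t := lt_of_lt_of_le ht1 ht
      exact (dM hf ht0 (hp t ht0)).continuousAt.continuousWithinAt
    · intro t ht
      rw [interior_Ici] at ht
      have ht0 : 0 < t := lt_trans ht1 ht
      exact (dM hf ht0 (hp t ht0)).differentiableAt.differentiableWithinAt
    · intro t ht
      rw [interior_Ici] at ht
      have ht0 : 0 < t := lt_trans ht1 ht
      rw [(dM hf ht0 (hp t ht0)).deriv]
      obtain ⟨q, μ, Jn, a1, a2, a3⟩ := hdec t ht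
      exact ineq t (f t) (deriv f t) (deriv (deriv f) t) (p t) (deriv p t) q μ Jn ht0
        (hf t ht0).1 a1 a2 a3 (hgt t ht)
  have hM1 : MM f p t1 ≤ m := by
    refine ge_of_tendsto (limM hf h1 h2 h3) ?_
    filter_upwards [eventually_ge_atTop t1] with t ht
    exact hmono Set.self_mem_Ici ht ht
  have hle : t1 * f t1 ^ 2 * |p t1| ≤ 2 * ww f t1 := by
    have c1 : ContinuousAt (fun t => t * f t ^ 2 * |p t|) t1 :=
      (dr hf ht1).continuousAt.mul (hp t1 ht1).continuousAt.abs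
    have c2 : ContinuousAt (fun t => 2 * ww f t) t1 :=
      (dw hf ht1).continuousAt.const_mul 2
    refine le_of_tendsto_of_tendsto (c1.tendsto.mono_left nhdsWithin_le_nhds)
      (c2.tendsto.mono_left (nhdsWithin_le_nhds (s := Set.Ioi t1))) ?_
    filter_upwards [self_mem_nhdsWithin] with t ht
    exact (hgt t ht).le
  have heq : 2 * ww f t1 = t1 * f t1 ^ 2 * |p t1| := le_antisymm htr hle
  have hw : ww f t1 ^ 2 = (t1 * f t1 ^ 2) ^ 2 * p t1 ^ 2 / 4 := by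
    have h4 : ww f t1 = t1 * f t1 ^ 2 * |p t1| / 2 := by linarith
    rw [h4, div_pow, mul_pow, sq_abs]
    ring
  have hM : MM f p t1 = t1 * f t1 ^ 2 / 2 := by
    unfold MM
    rw [hw]
    ring
  rw [← hM]
  exact hM1

end Pool.Agent.N795.PI
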