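import Pool.Agent.N904.AP.Basic

/-!
# Project AP: dichotomy for the orbit of `Ct (1/2)` (subtask 1135)
-/

set_option autoImplicit false

open Set Filter Topology

namespace Pool.Agent.N901.AP

open Pool.Agent.N904.AP

theorem lam_pos : 0 < lam := by
  unfold lam
  positivity

/-- the two special half turns map `KK` into itself -/
theorem sg_KK (h1 : StMove) {a : ℂ × ℂ} (ha : a = g1 ∨ a = g2) {x : OnePoint ℂ} (hx : x ∈ KK) :
    sg a x ∈ KK := by
  have hl := lam_pos
  have hl0 : lam ≠ 0 := hl.ne'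
  have hpos : ∀ n : ℤ, 0 < lam ^ n / 2 := fun n => half_pos (zpow_pos hl n)
  have e1 : ∀ n : ℤ, lam ^ n / 2 / lam = lam ^ (n - 1) / 2 := by
    intro n
    rw [zpow_sub_one₀ hl0]
    ring
  have e2 : ∀ n : ℤ, lam ^ n / 2 * lam = lam ^ (n + 1) / 2 := by
    intro n
    rw [zpow_add_one₀ hl0]
    ring
  have c0 : Ct 0 ⊆ KK := subset_union_left
  have ct : ∀ n : ℤ, Ct (lam ^ n / 2) ⊆ KK := fun n =>
    (subset_union_left.trans (subset_iUnion (fun n : ℤ => Ct (lam ^ n / 2) ∪ Cu (lam ^ n / 2)) n)).trans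
      subset_union_right
  have cu : ∀ n : ℤ, Cu (lam ^ n / 2) ⊆ KK := fun n =>
    (subset_union_right.trans (subset_iUnion (fun n : ℤ => Ct (lam ^ n / 2) ∪ Cu (lam ^ n / 2)) n)).trans
      subset_union_right
  rcases hx with hx | hx
  · obtain ⟨m1, m2⟩ := h1.1 0 le_rfl
    rw [if_pos rfl] at m1 m2
    rcases ha with rfl | rfl
    · exact c0 (m1 ▸ mem_image_of_mem _ hx)
    · exact c0 (m2 ▸ mem_image_of_mem _ hx)
  · obtain ⟨n, hn⟩ := mem_iUnion.1 hx
    rcases hn with hn | hn
    · obtain ⟨m1, m2⟩ := h1.1 _ (hpos n).le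
      rw [if_neg (hpos n).ne'] at m1 m2
      rw [e1] at m1
      rw [e2] at m2
      rcases ha with rfl | rfl
      · exact cu _ (m1 ▸ mem_image_of_mem _ hn)
      · exact cu _ (m2 ▸ mem_image_of_mem _ hn)
    · obtain ⟨m1, m2⟩ := h1.2 _ (hpos n)
      rw [e2] at m1
      rw [e1] at m2
      rcases ha with rfl | rfl
      · exact ct _ (m1 ▸ mem_image_of_mem _ hn)
      · exact ct _ (m2 ▸ mem_image_of_mem _ hn)

theorem dich_aux (h1 : StMove) (h2 : StAdm) {𝒜 : Set (ℂ × ℂ)} (hF : Fam 𝒜) :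
    ∀ l, InA 𝒜 l → Red l →
      ((∀ a ∈ l, a = g1 ∨ a = g2) ∧ wd l '' Ct (1 / 2) ⊆ KK) ∨
      ∃ b t, l = b :: t ∧ wd l '' Ct (1 / 2) ⊆ up (Dk b) := by
  have hA := h2 𝒜 hF
  obtain ⟨-, -, -, -, -, -, hK⟩ := hF
  intro l
  induction l with
  | nil =>
    intro _ _
    left
    refine ⟨fun a ha => by simp at ha, ?_⟩
    rintro _ ⟨x, hx, rfl⟩
    rw [wd_nil]
    refine Or.inr (mem_iUnion.2 ⟨0, Or.inl ?_⟩)
    rwa [zpow_zero]
  | cons b l ih =>
    intro hin hred
    have hb : b ∈ 𝒜 := hin.head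
    have hb0 : b.2 ≠ 0 := hA.ne b hb
    have hred' : Red l := by
      unfold Red at hred ⊢
      exact hred.tail
    rcases ih hin.tail hred' with ⟨hs, hsub⟩ | ⟨c, t, hlc, hsub⟩
    · by_cases hsp : b = g1 ∨ b = g2
      · left
        refine ⟨?_, ?_⟩
        · intro a ha
          rcases List.mem_cons.1 ha with rfl | ha
          · exact hsp
          · exact hs a ha
        · rintro _ ⟨x, hx, rfl⟩
          rw [wd_cons]
          exact sg_KK h1 hsp (hsub (mem_image_of_mem _ hx))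
      · right
        refine ⟨b, l, rfl, ?_⟩
        have hdis : Disjoint (up (Dk b)) KK := by
          rcases hK b hb with h | h | h
          · exact absurd (Or.inl h) hsp
          · exact absurd (Or.inr h) hsp
          · exact h
        rintro _ ⟨x, hx, rfl⟩
        rw [wd_cons]
        apply sg_mem_Dk hb0
        intro hmem
        have hm : wd l x ∈ up (Dk b) := by
          obtain ⟨w, hw, hwe⟩ := hmem
          exact ⟨w, Metric.ball_subset_closedBall hw, hwe⟩
        exact (Set.disjoint_left.1 hdis hm) (hsub (mem_image_of_mem _ hx))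
    · right
      refine ⟨b, l, rfl, ?_⟩
      subst hlc
      have hbc : b ≠ c := by
        unfold Red at hred
        exact (List.isChain_cons_cons.1 hred).1
      have hc : c ∈ 𝒜 := hin.tail.head
      have hdis : Disjoint (Dk b) (Dk c) := hA.disj hb hc hbc
      rintro _ ⟨x, hx, rfl⟩
      rw [wd_cons]
      apply sg_mem_Dk hb0
      intro hmem
      obtain ⟨w, hw, hwe⟩ := hsub (mem_image_of_mem _ hx)
      obtain ⟨w', hw', hwe'⟩ := hmem
      have : w = w' := OnePoint.coe_injective (hwe.trans hwe'.symm)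
      subst this
      exact Set.disjoint_left.1 hdis (Metric.ball_subset_closedBall hw') hw

/-- the dichotomy for the orbit of `Ct (1/2)` -/
theorem dich_of (h1 : StMove) (h2 : StAdm) : StDich := by
  intro 𝒜 hF l hin hred
  rcases dich_aux h1 h2 hF l hin hred with ⟨hs, -⟩ | ⟨b, t, hlb, hsub⟩
  · exact Or.inl hs
  · subst hlb
    exact Or.inr ⟨b, hin.head, hsub⟩

end Pool.Agent.N901.AP
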