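import Pool.Agent.N906.QP.Stm

/-!
# Project QP (helper906), UPQ: the upper bound from the uniform one (helper901)
-/

set_option autoImplicit false

namespace Pool.Agent.N901.QP

open NumberField IsDedekindDomain Finset Filter Topology Pool.Agent.H691R3 Pool.Agent.W223.AK
open Pool.Agent.N906.KG

/-- polynomials and exponentials -/
theorem poly_le_exp (A B c : ℝ) (hA : 0 ≤ A) (hB : 0 ≤ B) (hc : 0 < c) :
    ∃ S₀ : ℝ, 0 < S₀ ∧ ∀ S : ℝ, S₀ ≤ S → A + B * S ^ 4 ≤ Real.exp (c * S) := by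
  have h1 : ∀ k : ℕ, ∀ᶠ x : ℝ in atTop, (A + B + 1) * x ^ k ≤ Real.exp (c * x) / 2 := by
    intro k
    have h2 := (isLittleO_pow_exp_pos_mul_atTop (k := k) hc).bound
      (show (0 : ℝ) < 1 / (2 * (A + B + 1)) by positivity)
    filter_upwards [h2, eventually_ge_atTop 0] with x hx hx0
    rw [Real.norm_of_nonneg (by positivity), Real.norm_of_nonneg (Real.exp_pos _).le,
      div_mul_eq_mul_div, one_mul, le_div_iff₀ (by positivity)] at hx
    linarith
  obtain ⟨a, ha⟩ := eventually_atTop.1 ((h1 0).and (h1 4))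
  refine ⟨max a 1, lt_of_lt_of_le one_pos (le_max_right _ _), fun S hS => ?_⟩
  obtain ⟨h2, h3⟩ := ha S ((le_max_left _ _).trans hS)
  have h4 : 0 ≤ S ^ 4 := by positivity
  rw [pow_zero, mul_one] at h2
  nlinarith

/-- the error terms -/
theorem err (a c₁ c₂ C₀ : ℝ) (ha : 0 < a) (hc₁ : 0 ≤ c₁) (hc₂ : 0 < c₂) (hC₀ : 0 ≤ C₀) :
    ∃ X₀ : ℝ, 1 < X₀ ∧ ∀ X : ℝ, X₀ ≤ X →
      C₀ + (X + 1) * c₁ ≤ Real.exp (c₂ * √(a * X / Real.log X)) := by
  obtain ⟨S₀, hS₀, h⟩ := poly_le_exp (C₀ + c₁) (c₁ * (4 / a ^ 2)) c₂ (by positivity) (by positivity) hc₂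
  refine ⟨max 2 ((S₀ ^ 2 * 2 / a) ^ 2), lt_of_lt_of_le one_lt_two (le_max_left _ _), fun X hX => ?_⟩
  have hX2 : 2 ≤ X := (le_max_left _ _).trans hX
  have hXS : (S₀ ^ 2 * 2 / a) ^ 2 ≤ X := (le_max_right _ _).trans hX
  have hX0 : 0 < X := by linarith
  have hlog : 0 < Real.log X := Real.log_pos (by linarith)
  -- `log X ≤ 2 √X`
  have h1 : Real.log X ≤ 2 * √X := by
    have h2 := Real.log_le_rpow_div hX0.le (show (0 : ℝ) < 1 / 2 by norm_num)
    rw [← Real.sqrt_eq_rpow] at h2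
    linarith
  have hsq : 0 < √X := Real.sqrt_pos.2 hX0
  have hss : √X * √X = X := Real.mul_self_sqrt hX0.le
  have h2 : a / 2 * √X ≤ a * X / Real.log X := by
    rw [le_div_iff₀ hlog]
    calc a / 2 * √X * Real.log X ≤ a / 2 * √X * (2 * √X) :=
          mul_le_mul_of_nonneg_left h1 (by positivity)
      _ = a * (√X * √X) := by ring
      _ = a * X := by rw [hss]
  obtain ⟨S, hS⟩ : ∃ S, S = √(a * X / Real.log X) := ⟨_, rfl⟩
  rw [← hS]
  have hSS : S ^ 2 = a * X / Real.log X := by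
    rw [hS]
    exact Real.sq_sqrt (by positivity)
  have hSn : 0 ≤ S := by rw [hS]; exact Real.sqrt_nonneg _
  have h3 : S₀ ≤ S := by
    have h4 : S₀ ^ 2 * 2 / a ≤ √X := Real.le_sqrt_of_sq_le hXS
    rw [div_le_iff₀ ha] at h4
    have h5 : S₀ ^ 2 ≤ S ^ 2 := by rw [hSS]; linarith
    exact le_of_sq_le_sq h5 hSn
  have h4 : X ≤ 4 / a ^ 2 * S ^ 4 := by
    have h5 : (a / 2 * √X) ^ 2 ≤ (S ^ 2) ^ 2 := by
      rw [hSS]
      exact pow_le_pow_left₀ (by positivity) h2 2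
    have h6 : (a / 2 * √X) ^ 2 = a ^ 2 / 4 * X := by
      rw [mul_pow, Real.sq_sqrt hX0.le]
      ring
    rw [h6] at h5
    rw [div_mul_eq_mul_div, le_div_iff₀ (by positivity)]
    nlinarith
  have h5 := h S h3
  have h6 := mul_le_mul_of_nonneg_left h4 hc₁
  linarith

variable (K : Type) [Field K] [NumberField K]

/-- The upper bound from the uniform one (for `κ₁ ≤ 2`). -/
theorem upq (q : ℕ) (κ₁ : ℝ) (hq : 1 ≤ q) (hκ₁ : κ₁ ≤ 2) (h1 : S_UPU K q κ₁) (h2 : S_CELLQ K)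
    (h3 : S_BASQ K) : S_UPQ K q κ₁ := by
  classical
  intro α S κ ε C₀ hAl hGd hκ hκκ hε hC₀
  have hqR : (1 : ℝ) ≤ q := by exact_mod_cast hq
  obtain ⟨δ, hδ, hδ1, hδ2⟩ : ∃ δ : ℝ, 0 < δ ∧ δ ≤ κ / 2 ∧ δ ≤ κ₁ - κ :=
    ⟨min (κ / 2) (κ₁ - κ), lt_min (by linarith) (by linarith), min_le_left _ _, min_le_right _ _⟩
  obtain ⟨X₁, hX₁, hU⟩ := h1 α S δ (ε / 2) hAl hGd hδ (by linarith)
  obtain ⟨Cc, hCc, hCell⟩ := h2 q α S hAl hGd
  obtain ⟨X₂, hX₂⟩ : ∃ X₂, X₂ = max X₁ (max (Real.exp 1) (2 * (κ + C₀) / κ)) := ⟨_, rfl⟩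
  have hX₂1 : X₁ ≤ X₂ := by rw [hX₂]; exact le_max_left _ _
  have hX₂2 : Real.exp 1 ≤ X₂ := by
    rw [hX₂]; exact (le_max_left _ _).trans (le_max_right _ _)
  have hX₂3 : 2 * (κ + C₀) / κ ≤ X₂ := by
    rw [hX₂]; exact (le_max_right _ _).trans (le_max_right _ _)
  have hX₂0 : 1 < X₂ := lt_of_lt_of_le hX₁ hX₂1
  obtain ⟨X₃, hX₃, hE⟩ := err (8 * q * κ) (Real.exp (κ + C₀)) (ε / 2) (Cc * (Real.exp (2 * X₂) + 1))
    (by positivity) (Real.exp_pos _).le (by linarith) (by positivity)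
  refine ⟨max X₂ X₃, lt_of_lt_of_le hX₂0 (le_max_left _ _), fun X F hX hF => ?_⟩
  have hXX₂ : X₂ ≤ X := (le_max_left _ _).trans hX
  have hXX₃ : X₃ ≤ X := (le_max_right _ _).trans hX
  have hX0 : 0 < X := by linarith
  obtain ⟨A, hA⟩ : ∃ A, A = (2 - κ) * X + (1 + ε / 2) * √(8 * q * κ * X / Real.log X) := ⟨_, rfl⟩
  have hA0 : 0 ≤ A := by
    rw [hA]
    have : 0 ≤ (2 - κ) * X := mul_nonneg (by linarith) hX0.le
    positivity
  -- the small points
  have hlow : ((F.filter fun x => hr (aff x) ≤ X₂).card : ℝ) ≤ Cc * (Real.exp (2 * X₂) + 1) := by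
    obtain ⟨-, hB⟩ := h3 q α hq hAl
    obtain ⟨CB, -, hB⟩ := hB S hGd
    have h5 := hCell X₂ (fun _ => 0) (fun _ => ⟨0, by omega⟩) (fun _ => 0)
      (F.filter fun x => hr (aff x) ≤ X₂) (by linarith) (fun _ _ => le_rfl) (fun l v _ => rfl) (by
        intro x hx
        obtain ⟨hx1, hx2⟩ := Finset.mem_filter.1 hx
        obtain ⟨hO, -, P, hP, -⟩ := hF x hx1
        refine ⟨hO, hx2, fun v hv => ?_, P, hP, fun l => bot_le⟩
        have h6 := ((hB x hO).2.2.1 v hv).1 ⟨0, by omega⟩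
        linarith)
    have h6 : tl (fun _ : Fin q => (0 : Idl K)) = 0 := by
      unfold tl len
      simp
    rw [h6] at h5
    simpa using h5
  -- the shells
  have hshell : ∀ j : ℕ, ((F.filter fun x => X₂ ≤ X - j ∧ X - j - 1 < hr (aff x) ∧
      hr (aff x) ≤ X - j).card : ℝ) ≤ Real.exp (κ + C₀) * Real.exp A := by
    intro j
    by_cases hj : X₂ ≤ X - j
    · obtain ⟨m, hm⟩ : ∃ m : ℝ, m = X - j := ⟨_, rfl⟩
      rw [← hm] at hj
      have hmX : m ≤ X := by
        rw [hm]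
        have : (0 : ℝ) ≤ j := Nat.cast_nonneg j
        linarith
      have hm0 : 0 < m := by linarith
      have hmκ : 2 * (κ + C₀) ≤ κ * m := by
        have h5 := hX₂3.trans hj
        rw [div_le_iff₀ hκ] at h5
        linarith
      have h5 := hU m (κ * (m - 1) - C₀) (F.filter fun x => X₂ ≤ X - j ∧ X - j - 1 < hr (aff x) ∧
        hr (aff x) ≤ X - j) (hX₂1.trans hj) (by nlinarith) (by nlinarith) (by
          intro x hx
          obtain ⟨hx1, -, hx2, hx3⟩ := Finset.mem_filter.1 hx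
          obtain ⟨hO, -, P, hP, hPt⟩ := hF x hx1
          rw [← hm] at hx2 hx3
          refine ⟨hO, hx2, hx3, P, hP, ?_⟩
          have h6 : κ * (m - 1) ≤ κ * hr (aff x) := mul_le_mul_of_nonneg_left hx2.le hκ.le
          linarith)
      refine h5.trans ?_
      rw [← Real.exp_add]
      apply Real.exp_le_exp.2
      have hlm : 0 < Real.log m := Real.log_pos (by linarith)
      have hlX : 0 < Real.log X := Real.log_pos (by linarith)
      have h6 : m / Real.log m ≤ X / Real.log X := by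
        have h7 := Real.log_div_self_antitoneOn (show m ∈ {x : ℝ | Real.exp 1 ≤ x} from hX₂2.trans hj)
          (show X ∈ {x : ℝ | Real.exp 1 ≤ x} from hX₂2.trans hXX₂) hmX
        have h8 : Real.log X / X ≤ Real.log m / m := h7
        rw [div_le_div_iff₀ hX0 hm0] at h8
        rw [div_le_div_iff₀ hlm hlX]
        linarith
      have h7 : √(8 * q * (κ * (m - 1) - C₀) / Real.log m) ≤ √(8 * q * κ * X / Real.log X) := by
        apply Real.sqrt_le_sqrt
        have h8 : 8 * q * (κ * (m - 1) - C₀) / Real.log m ≤ 8 * q * κ * (m / Real.log m) := by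
          rw [← mul_div_assoc]
          apply div_le_div_of_nonneg_right _ hlm.le
          nlinarith
        refine h8.trans ?_
        rw [mul_div_assoc (8 * (q : ℝ) * κ) X]
        exact mul_le_mul_of_nonneg_left h6 (by positivity)
      have h8 := mul_le_mul_of_nonneg_left h7 (show (0 : ℝ) ≤ 1 + ε / 2 by linarith)
      have h9 : (2 - κ) * m ≤ (2 - κ) * X := mul_le_mul_of_nonneg_left hmX (by linarith)
      rw [hA]
      linarith
    · have h5 : (F.filter fun x => X₂ ≤ X - j ∧ X - j - 1 < hr (aff x) ∧ hr (aff x) ≤ X - j) = ∅ := by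
        apply Finset.filter_eq_empty_iff.2
        intro x _ h
        exact hj h.1
      rw [h5, Finset.card_empty, Nat.cast_zero]
      positivity
  -- the union
  have hsub : F ⊆ (F.filter fun x => hr (aff x) ≤ X₂) ∪ (Finset.range (⌊X⌋₊ + 1)).biUnion fun j =>
      F.filter fun x => X₂ ≤ X - j ∧ X - j - 1 < hr (aff x) ∧ hr (aff x) ≤ X - j := by
    intro x hx
    obtain ⟨hO, hxX, -⟩ := hF x hx
    rw [Finset.mem_union]
    by_cases hlo : hr (aff x) ≤ X₂
    · exact Or.inl (Finset.mem_filter.2 ⟨hx, hlo⟩)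
    · right
      push Not at hlo
      rw [Finset.mem_biUnion]
      have h5 : 0 ≤ X - hr (aff x) := by linarith
      have h6 := Nat.floor_le h5
      have h7 := Nat.lt_floor_add_one (X - hr (aff x))
      refine ⟨⌊X - hr (aff x)⌋₊, ?_, Finset.mem_filter.2 ⟨hx, by linarith, by linarith, by linarith⟩⟩
      rw [Finset.mem_range, Nat.lt_succ_iff]
      exact Nat.floor_le_floor (by linarith)
  have hcard := (Finset.card_le_card hsub).trans (Finset.card_union_le _ _)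
  have hcard2 := Finset.card_biUnion_le (s := Finset.range (⌊X⌋₊ + 1)) (t := fun j =>
      F.filter fun x => X₂ ≤ X - (j : ℕ) ∧ X - (j : ℕ) - 1 < hr (aff x) ∧ hr (aff x) ≤ X - (j : ℕ))
  have hsum : ((∑ j ∈ Finset.range (⌊X⌋₊ + 1), (F.filter fun x => X₂ ≤ X - (j : ℕ) ∧
      X - (j : ℕ) - 1 < hr (aff x) ∧ hr (aff x) ≤ X - (j : ℕ)).card : ℕ) : ℝ) ≤
      (X + 1) * (Real.exp (κ + C₀) * Real.exp A) := by
    rw [Nat.cast_sum]
    refine (Finset.sum_le_sum fun j _ => hshell j).trans ?_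
    rw [Finset.sum_const, Finset.card_range, nsmul_eq_mul]
    refine mul_le_mul_of_nonneg_right ?_ (by positivity)
    push_cast
    linarith [Nat.floor_le hX0.le]
  have hF1 : (F.card : ℝ) ≤ Cc * (Real.exp (2 * X₂) + 1) +
      (X + 1) * (Real.exp (κ + C₀) * Real.exp A) := by
    have h5 : (F.card : ℝ) ≤ ((F.filter fun x => hr (aff x) ≤ X₂).card : ℝ) +
        ((∑ j ∈ Finset.range (⌊X⌋₊ + 1), (F.filter fun x => X₂ ≤ X - (j : ℕ) ∧
          X - (j : ℕ) - 1 < hr (aff x) ∧ hr (aff x) ≤ X - (j : ℕ)).card : ℕ) : ℝ) := by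
      exact_mod_cast hcard.trans (Nat.add_le_add_left hcard2 _)
    linarith
  have hA1 : 1 ≤ Real.exp A := Real.one_le_exp hA0
  have hlow' : Cc * (Real.exp (2 * X₂) + 1) ≤ Cc * (Real.exp (2 * X₂) + 1) * Real.exp A :=
    le_mul_of_one_le_right (by positivity) hA1
  have hfin : (F.card : ℝ) ≤ (Cc * (Real.exp (2 * X₂) + 1) + (X + 1) * Real.exp (κ + C₀)) *
      Real.exp A := by
    refine hF1.trans ?_
    have h5 : (Cc * (Real.exp (2 * X₂) + 1) + (X + 1) * Real.exp (κ + C₀)) * Real.exp A =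
        Cc * (Real.exp (2 * X₂) + 1) * Real.exp A + (X + 1) * (Real.exp (κ + C₀) * Real.exp A) := by
      ring
    rw [h5]
    linarith
  refine hfin.trans ((mul_le_mul_of_nonneg_right (hE X hXX₃) (Real.exp_pos A).le).trans ?_)
  rw [← Real.exp_add]
  apply Real.exp_le_exp.2
  rw [hA]
  apply le_of_eq
  ring

end Pool.Agent.N901.QP
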