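import Mathlib

/-!
# Definitions for Remond's Lehmer conjecture on tori

`K` is a number field, `AlgebraicClosure K` its algebraic closure, `G = G_m^n`, embedded in
`(P^1)^n`, with `L = O(1,...,1)`.
-/

namespace Pool.Agent.N901.Remond

open Filter Topology

noncomputable section

variable (K : Type*) [Field K] [NumberField K]

/-- The group `G(K^al)` of geometric points of `G = G_m^n`. -/
abbrev Pts (n : ℕ) : Type _ := Fin n → (AlgebraicClosure K)ˣ

variable {K} {n : ℕ}

/-- The coordinates of a point, as elements of the algebraic closure. -/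
def coords (x : Pts K n) : Fin n → AlgebraicClosure K := fun i => (x i : AlgebraicClosure K)

/-- The canonical height `h_G(x) = ∑ i, h(x i)`, with `h` the absolute logarithmic Weil height. -/
def height (x : Pts K n) : ℝ := ∑ i, NumberField.absLogHeight₁ (coords x i)

/-- `Z` is a Zariski closed subset of `G` defined over the intermediate field `L`:
the set of common zeros in `G` of some polynomials with coefficients in `L`. -/
def IsClosedOver (L : IntermediateField K (AlgebraicClosure K)) (Z : Set (Pts K n)) : Prop :=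
  ∃ S : Set (MvPolynomial (Fin n) L), Z = {x | ∀ f ∈ S, MvPolynomial.aeval (coords x) f = 0}

/-- Zariski closed subsets of `G` (over the algebraic closure). -/
def IsZariskiClosed (Z : Set (Pts K n)) : Prop := IsClosedOver ⊤ Z

/-- Subvarieties: nonempty irreducible Zariski closed subsets. -/
def IsSubvariety (V : Set (Pts K n)) : Prop :=
  IsZariskiClosed V ∧ V.Nonempty ∧
    ∀ A B : Set (Pts K n), IsZariskiClosed A → IsZariskiClosed B → V ⊆ A ∪ B → V ⊆ A ∨ V ⊆ B

/-- The subset `A` of `V` is Zariski dense in `V`. -/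
def IsDenseIn (A V : Set (Pts K n)) : Prop :=
  A ⊆ V ∧ ∀ Z : Set (Pts K n), IsZariskiClosed Z → A ⊆ Z → V ⊆ Z

/-- The dimension of a Zariski closed set: the supremum of the lengths of the chains of
irreducible closed subsets contained in it. -/
def dimension (Z : Set (Pts K n)) : WithBot ℕ∞ :=
  Order.krullDim {W : Set (Pts K n) // IsSubvariety W ∧ W ⊆ Z}

/-- The Zariski closed set `Z` is equidimensional of dimension `d`: all its irreducible
components have dimension `d`. -/
def IsEquidimensional (Z : Set (Pts K n)) (d : ℕ) : Prop :=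
  ∀ C : Set (Pts K n), Maximal (fun W => IsSubvariety W ∧ W ⊆ Z) C → dimension C = d

/-- The multihomogeneous Hilbert function of the closure of `Z` in `(P^1)^n` along
`L = O(1,...,1)`: the dimension of the space of functions on `Z` which are restrictions of
polynomials of degree at most `t` in each variable (that is, of sections of `L^t`). -/
def hilbert (Z : Set (Pts K n)) (t : ℕ) : ℕ :=
  Module.finrank (AlgebraicClosure K)
    (Submodule.span (AlgebraicClosure K)
      {g : Z → AlgebraicClosure K | ∃ f : MvPolynomial (Fin n) (AlgebraicClosure K),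
        (∀ i, f.degreeOf i ≤ t) ∧ ∀ z : Z, g z = MvPolynomial.eval (coords z.1) f})

/-- `D` is the degree `L^d · Z` of the closure in `(P^1)^n` of the equidimensional closed set `Z`
of dimension `d`: the Hilbert function is `D t^d / d! + o(t^d)`. -/
def HasDegree (Z : Set (Pts K n)) (d : ℕ) (D : ℝ) : Prop :=
  Tendsto (fun t : ℕ => (d.factorial : ℝ) * (hilbert Z t : ℝ) / (t : ℝ) ^ d) atTop (𝓝 D)

/-- The obstruction index `ω_L(V)`: the minimum of `deg(Z)^(1/(dim G - dim Z))` over the
equidimensional closed `Z ≠ G` defined over `L` that contain `V`. -/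
def obstructionIndex (L : IntermediateField K (AlgebraicClosure K)) (V : Set (Pts K n)) : ℝ :=
  sInf {r : ℝ | ∃ (Z : Set (Pts K n)) (d : ℕ) (D : ℝ), IsClosedOver L Z ∧ Z ≠ Set.univ ∧
    IsEquidimensional Z d ∧ V ⊆ Z ∧ HasDegree Z d D ∧ r = D ^ (1 / ((n : ℝ) - (d : ℝ)))}

/-- The essential minimum of `V`. -/
def essentialMinimum (V : Set (Pts K n)) : ℝ :=
  sInf {θ : ℝ | IsDenseIn {x ∈ V | height x ≤ θ} V}

/-- The field `K(Γ)` generated over `K` by the coordinates of the points of `Γ`. -/
def fieldOf (Γ : Subgroup (Pts K n)) : IntermediateField K (AlgebraicClosure K) :=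
  IntermediateField.adjoin K {a | ∃ x ∈ Γ, ∃ i, a = coords x i}

/-- The saturation of `Γ`. -/
def saturation (Γ : Subgroup (Pts K n)) : Set (Pts K n) := {x | ∃ m : ℕ, 1 ≤ m ∧ x ^ m ∈ Γ}

/-- `T` is a `Γ`-torsion subvariety: a translate of a connected algebraic subgroup `B` of `G` by a
point of the saturation of `Γ`. (An algebraic subgroup is connected if and only if it is
irreducible.) -/
def IsTorsionSubvariety (Γ : Subgroup (Pts K n)) (T : Set (Pts K n)) : Prop :=
  ∃ B : Subgroup (Pts K n), IsSubvariety (B : Set (Pts K n)) ∧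
    ∃ γ ∈ saturation Γ, T = {x | ∃ b ∈ B, x = b * γ}

/-- `V` is `Γ`-transverse: no proper `Γ`-torsion subvariety of `G` contains `V`. -/
def IsTransverse (Γ : Subgroup (Pts K n)) (V : Set (Pts K n)) : Prop :=
  ∀ T : Set (Pts K n), IsTorsionSubvariety Γ T → T ≠ Set.univ → ¬ V ⊆ T

/-- `Γ` is a Lehmer group (for `G = G_m^n` and `L = O(1,...,1)`). -/
def IsLehmerGroup (Γ : Subgroup (Pts K n)) : Prop :=
  ∃ c : ℝ, 0 < c ∧ ∀ V : Set (Pts K n), IsSubvariety V → V ≠ Set.univ → IsTransverse Γ V →
    c ≤ obstructionIndex (fieldOf Γ) V * essentialMinimum V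

/-- The rank of `Γ`, the dimension of `Γ ⊗ ℚ`. -/
def rank (Γ : Subgroup (Pts K n)) : Cardinal :=
  Module.rank ℚ (TensorProduct ℤ ℚ (Additive Γ))

end

end Pool.Agent.N901.Remond
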