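import Mathlib
import Pool.Agent.N901.RemondDefs

namespace Pool.Agent.N901.Remond

open Filter Topology

set_option linter.unusedSectionVars false

noncomputable section

variable {K : Type*} [Field K] [NumberField K]

/-- The curve `Y = β`. -/
def curve (β : (AlgebraicClosure K)ˣ) : Set (Pts K 2) := {x | x 1 = β}

/-- The point `(t, β)`. -/
def pt (β t : (AlgebraicClosure K)ˣ) : Pts K 2 := ![t, β]

theorem pt_mem (β t : (AlgebraicClosure K)ˣ) : pt β t ∈ curve β := rfl

theorem eq_pt {β : (AlgebraicClosure K)ˣ} {x : Pts K 2} (hx : x ∈ curve β) : x = pt β (x 0) := by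
  funext i
  fin_cases i
  · rfl
  · exact hx

theorem pt_injective (β : (AlgebraicClosure K)ˣ) : Function.Injective (pt β) := by
  intro s t h
  exact congrFun h 0

/-- Restriction of a polynomial to the curve `Y = β`. -/
def restr (β : (AlgebraicClosure K)ˣ) (L : IntermediateField K (AlgebraicClosure K))
    (f : MvPolynomial (Fin 2) L) : Polynomial (AlgebraicClosure K) :=
  MvPolynomial.aeval ![Polynomial.X, Polynomial.C (β : AlgebraicClosure K)] f

theorem eval_restr (β t : (AlgebraicClosure K)ˣ) (L : IntermediateField K (AlgebraicClosure K))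
    (f : MvPolynomial (Fin 2) L) :
    (restr β L f).eval (t : AlgebraicClosure K) = MvPolynomial.aeval (coords (pt β t)) f := by
  unfold restr
  rw [← Polynomial.coe_evalRingHom, MvPolynomial.map_aeval, MvPolynomial.aeval_def]
  have h1 : (Polynomial.evalRingHom (t : AlgebraicClosure K)).comp
      (algebraMap L (Polynomial (AlgebraicClosure K))) = algebraMap L (AlgebraicClosure K) := by
    ext x
    simp
  have h2 : (fun i => Polynomial.evalRingHom (t : AlgebraicClosure K)
      (![Polynomial.X, Polynomial.C (β : AlgebraicClosure K)] i)) = coords (pt β t) := by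
    funext i
    fin_cases i <;> simp [coords, pt]
  rw [h1, h2]
  rfl

theorem closed_inter (β : (AlgebraicClosure K)ˣ) (A : Set (Pts K 2)) (hA : IsZariskiClosed A) :
    (∀ t, pt β t ∈ A) ∨ {t | pt β t ∈ A}.Finite := by
  obtain ⟨S, rfl⟩ := hA
  by_cases h : ∀ f ∈ S, restr β ⊤ f = 0
  · left
    intro t f hf
    rw [← eval_restr, h f hf, Polynomial.eval_zero]
  · right
    push Not at h
    obtain ⟨f, hf, hne⟩ := h
    have hfin : {z : AlgebraicClosure K | (restr β ⊤ f).IsRoot z}.Finite :=
      Polynomial.finite_setOfPred_isRoot hne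
    apply Set.Finite.subset (hfin.preimage (Units.val_injective.injOn))
    intro t ht
    have := ht f hf
    rw [← eval_restr] at this
    exact this

theorem curve_closed (β : (AlgebraicClosure K)ˣ) (L : IntermediateField K (AlgebraicClosure K))
    (hβ : (β : AlgebraicClosure K) ∈ L) : IsClosedOver L (curve β) := by
  refine ⟨{MvPolynomial.X 1 - MvPolynomial.C ⟨β, hβ⟩}, ?_⟩
  ext x
  simp only [curve, Set.mem_ofPred_eq, Set.mem_singleton_iff, forall_eq, map_sub,
    MvPolynomial.aeval_X, MvPolynomial.aeval_C, sub_eq_zero]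
  constructor
  · intro h
    simp [coords, h]
  · intro h
    apply Units.ext
    simpa [coords] using h

theorem coord_closed (i : Fin 2) (T : Finset (AlgebraicClosure K)) :
    IsZariskiClosed {x : Pts K 2 | coords x i ∈ T} := by
  classical
  refine ⟨{∏ t ∈ T, (MvPolynomial.X i - MvPolynomial.C ⟨t, trivial⟩)}, ?_⟩
  ext x
  simp only [Set.mem_ofPred_eq, Set.mem_singleton_iff, forall_eq, map_prod, map_sub,
    MvPolynomial.aeval_X, MvPolynomial.aeval_C, Finset.prod_eq_zero_iff, sub_eq_zero]
  constructor
  · intro h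
    exact ⟨_, h, rfl⟩
  · rintro ⟨t, ht, h⟩
    rw [h]
    exact ht

theorem point_subvariety (P : Pts K 2) : IsSubvariety ({P} : Set (Pts K 2)) := by
  refine ⟨?_, Set.singleton_nonempty _, ?_⟩
  · refine ⟨{f | ∃ i : Fin 2, f = MvPolynomial.X i - MvPolynomial.C ⟨coords P i, trivial⟩}, ?_⟩
    ext x
    simp only [Set.mem_singleton_iff, Set.mem_ofPred_eq, forall_exists_index,
      forall_eq_apply_imp_iff, map_sub, MvPolynomial.aeval_X, MvPolynomial.aeval_C, sub_eq_zero]
    constructor
    · rintro rfl i
      rfl
    · intro h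
      funext i
      apply Units.ext
      exact h i
  · intro A B _ _ hAB
    rcases hAB rfl with h | h
    · left
      simpa using h
    · right
      simpa using h

instance : Infinite (AlgebraicClosure K)ˣ := by
  apply Infinite.of_injective (fun k : ℕ => Units.mk0 ((k : AlgebraicClosure K) + 1)
    (Nat.cast_add_one_ne_zero k))
  intro a b h
  have h1 : (a : AlgebraicClosure K) + 1 = (b : AlgebraicClosure K) + 1 := congrArg Units.val h
  have h2 : (a : AlgebraicClosure K) = (b : AlgebraicClosure K) := by
    linear_combination h1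
  exact_mod_cast h2

theorem curve_subvariety (β : (AlgebraicClosure K)ˣ) : IsSubvariety (curve β) := by
  refine ⟨curve_closed β ⊤ trivial, ⟨pt β 1, pt_mem β 1⟩, ?_⟩
  intro A B hA hB hAB
  have key : ∀ C : Set (Pts K 2), (∀ t, pt β t ∈ C) → curve β ⊆ C := by
    intro C hC x hx
    rw [eq_pt hx]
    exact hC _
  rcases closed_inter β A hA with h | h
  · exact Or.inl (key A h)
  rcases closed_inter β B hB with h' | h'
  · exact Or.inr (key B h')
  exfalso
  have : (Set.univ : Set (AlgebraicClosure K)ˣ).Finite := by
    apply (h.union h').subset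
    intro t _
    exact hAB (pt_mem β t)
  exact Set.infinite_univ this

/-- An irreducible closed proper subset of the curve is a point. -/
theorem sub_curve (β : (AlgebraicClosure K)ˣ) (W : Set (Pts K 2)) (hW : IsSubvariety W)
    (hWZ : W ⊆ curve β) (hne : W ≠ curve β) : ∃ P, W = {P} := by
  classical
  have hfin : {t | pt β t ∈ W}.Finite := by
    rcases closed_inter β W hW.1 with h | h
    · exfalso
      apply hne
      apply Set.Subset.antisymm hWZ
      intro x hx
      rw [eq_pt hx]
      exact h _
    · exact h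
  obtain ⟨w, hw⟩ := hW.2.1
  let T : Finset (AlgebraicClosure K) :=
    (hfin.toFinset.image Units.val).erase (coords w 0)
  have hcov : W ⊆ {x : Pts K 2 | coords x 0 ∈ ({coords w 0} : Finset (AlgebraicClosure K))} ∪
      {x : Pts K 2 | coords x 0 ∈ T} := by
    intro x hx
    by_cases h : coords x 0 = coords w 0
    · left
      simpa using h
    · right
      simp only [Set.mem_ofPred_eq, T, Finset.mem_erase, Finset.mem_image, Set.Finite.mem_toFinset]
      refine ⟨h, x 0, ?_, rfl⟩
      rw [← eq_pt (hWZ hx)]
      exact hx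
  rcases hW.2.2 _ _ (coord_closed 0 _) (coord_closed 0 _) hcov with h | h
  · refine ⟨w, ?_⟩
    apply Set.Subset.antisymm
    · intro x hx
      have h1 := h hx
      simp only [Finset.mem_singleton, Set.mem_ofPred_eq] at h1
      have h2 : x 0 = w 0 := Units.ext h1
      rw [Set.mem_singleton_iff, eq_pt (hWZ hx), eq_pt (hWZ hw), h2]
    · simpa using hw
  · exfalso
    have h1 := h hw
    simp [T] at h1

theorem curve_dimension (β : (AlgebraicClosure K)ˣ) : dimension (curve β) = 1 := by
  unfold dimension
  apply le_antisymm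
  · rw [Order.krullDim_le_one_iff]
    rintro ⟨W, hW, hWZ⟩
    by_cases hne : W = curve β
    · right
      rintro ⟨W', hW', hWZ'⟩ _
      change W' ⊆ W
      rw [hne]
      exact hWZ'
    · left
      obtain ⟨P, rfl⟩ := sub_curve β W hW hWZ hne
      rintro ⟨W', hW', hWZ'⟩ hle
      change W' ⊆ {P} at hle
      change {P} ⊆ W'
      obtain ⟨Q, hQ⟩ := hW'.2.1
      have : Q = P := hle hQ
      rw [← this]
      simpa using hQ
  · rw [Order.one_le_krullDim_iff]
    refine ⟨⟨{pt β 1}, point_subvariety _, by simpa using pt_mem β 1⟩,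
      ⟨curve β, curve_subvariety β, le_rfl⟩, ?_⟩
    rw [Subtype.mk_lt_mk]
    refine Set.ssubset_iff_subset_ne.2 ⟨by simpa using pt_mem β 1, ?_⟩
    intro h
    have h1 : pt β (Units.mk0 2 (by norm_num)) ∈ ({pt β 1} : Set (Pts K 2)) := by
      rw [h]
      exact pt_mem _ _
    have h2 := pt_injective β (Set.mem_singleton_iff.1 h1)
    have h3 : (2 : AlgebraicClosure K) = 1 := congrArg Units.val h2
    norm_num at h3

theorem curve_equidim (β : (AlgebraicClosure K)ˣ) : IsEquidimensional (curve β) 1 := by
  intro C hC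
  have : C = curve β :=
    Set.Subset.antisymm hC.1.2 (hC.2 ⟨curve_subvariety β, le_rfl⟩ hC.1.2)
  rw [this, curve_dimension]
  rfl

theorem curve_ne_univ (β : (AlgebraicClosure K)ˣ) : curve β ≠ Set.univ := by
  intro h
  have h1 : pt (β * Units.mk0 2 (by norm_num)) 1 ∈ curve β := by rw [h]; trivial
  have h2 : β * Units.mk0 (2 : AlgebraicClosure K) (by norm_num) = β := h1
  rw [mul_eq_left] at h2
  have h3 : (2 : AlgebraicClosure K) = 1 := congrArg Units.val h2
  norm_num at h3

end

end Pool.Agent.N901.Remond
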