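import Mathlib
import Pool.Agent.N901.RemondDefs
import Pool.Agent.N901.RemondCurve

namespace Pool.Agent.N901.Remond

open Filter Topology

set_option linter.unusedSectionVars false

noncomputable section

variable {K : Type*} [Field K] [NumberField K]

/-- Evaluation of univariate polynomials at the first coordinate of the points of the curve. -/
def phi (β : (AlgebraicClosure K)ˣ) (t : ℕ) :
    Polynomial.degreeLT (AlgebraicClosure K) (t + 1) →ₗ[AlgebraicClosure K]
      (curve β → AlgebraicClosure K) where
  toFun p := fun z => (p : Polynomial (AlgebraicClosure K)).eval (coords z.1 0)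
  map_add' p q := by
    funext z
    simp
  map_smul' c p := by
    funext z
    simp

theorem phi_injective (β : (AlgebraicClosure K)ˣ) (t : ℕ) : Function.Injective (phi β t) := by
  rw [← LinearMap.ker_eq_bot, LinearMap.ker_eq_bot']
  intro p hp
  apply Subtype.ext
  by_contra hne
  have hfin : {z : AlgebraicClosure K | (p : Polynomial (AlgebraicClosure K)).IsRoot z}.Finite :=
    Polynomial.finite_setOfPred_isRoot hne
  have h2 := hfin.preimage (Units.val_injective (α := AlgebraicClosure K)).injOn
  have h3 : (Set.univ : Set (AlgebraicClosure K)ˣ).Finite := by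
    apply h2.subset
    intro s _
    have := congrFun hp ⟨pt β s, pt_mem β s⟩
    simpa [phi, coords, pt] using this
  exact Set.infinite_univ h3

/-- The restriction of a polynomial of degree at most `t` in `X` has degree at most `t`. -/
theorem restr_degree (β : (AlgebraicClosure K)ˣ) (f : MvPolynomial (Fin 2) (AlgebraicClosure K))
    (t : ℕ) (hf : ∀ i, f.degreeOf i ≤ t) :
    (MvPolynomial.aeval ![Polynomial.X, Polynomial.C (β : AlgebraicClosure K)] f :
      Polynomial (AlgebraicClosure K)) ∈ Polynomial.degreeLT (AlgebraicClosure K) (t + 1) := by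
  rw [MvPolynomial.aeval_def, MvPolynomial.eval₂_eq']
  apply Submodule.sum_mem
  intro m hm
  rw [Polynomial.mem_degreeLT]
  have h1 : m 0 ≤ t := (MvPolynomial.monomial_le_degreeOf 0 hm).trans (hf 0)
  rw [Fin.prod_univ_two]
  simp only [Matrix.cons_val_zero, Matrix.cons_val_one, Polynomial.algebraMap_apply,
    Algebra.algebraMap_self, RingHom.id_apply]
  rw [← Polynomial.C_pow, mul_comm (Polynomial.X ^ m 0), ← mul_assoc, ← Polynomial.C_mul]
  refine (Polynomial.degree_C_mul_X_pow_le _ _).trans_lt ?_
  exact_mod_cast Nat.lt_succ_of_le h1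

theorem hilbert_curve (β : (AlgebraicClosure K)ˣ) (t : ℕ) : hilbert (curve β) t = t + 1 := by
  unfold hilbert
  have hspan : Submodule.span (AlgebraicClosure K)
      {g : curve β → AlgebraicClosure K | ∃ f : MvPolynomial (Fin 2) (AlgebraicClosure K),
        (∀ i, f.degreeOf i ≤ t) ∧ ∀ z : curve β, g z = MvPolynomial.eval (coords z.1) f} =
      LinearMap.range (phi β t) := by
    apply le_antisymm
    · rw [Submodule.span_le]
      rintro g ⟨f, hf, hg⟩
      refine ⟨⟨_, restr_degree β f t hf⟩, ?_⟩
      funext z
      rw [hg z]
      change Polynomial.eval (coords z.1 0) (MvPolynomial.aeval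
        ![Polynomial.X, Polynomial.C (β : AlgebraicClosure K)] f) = _
      rw [← Polynomial.coe_evalRingHom, MvPolynomial.map_aeval]
      have h1 : (Polynomial.evalRingHom (coords z.1 0)).comp
          (algebraMap (AlgebraicClosure K) (Polynomial (AlgebraicClosure K))) =
            RingHom.id (AlgebraicClosure K) := by
        ext x
        simp
      have h2 : (fun i => Polynomial.evalRingHom (coords z.1 0)
          (![Polynomial.X, Polynomial.C (β : AlgebraicClosure K)] i)) = coords z.1 := by
        funext i
        fin_cases i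
        · simp
        · have hz : (z : Pts K 2) 1 = β := z.2
          simp [coords, hz]
      rw [h1, h2]
      rfl
    · rintro _ ⟨p, rfl⟩
      apply Submodule.subset_span
      refine ⟨Polynomial.aeval (MvPolynomial.X 0) (p : Polynomial (AlgebraicClosure K)), ?_, ?_⟩
      · intro i
        rw [Polynomial.aeval_eq_sum_range]
        refine (MvPolynomial.degreeOf_sum_le _ _ _).trans ?_
        apply Finset.sup_le
        intro j hj
        have hdeg : (p : Polynomial (AlgebraicClosure K)).natDegree < t + 1 := by
          have := Polynomial.mem_degreeLT.1 p.2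
          by_cases h0 : (p : Polynomial (AlgebraicClosure K)) = 0
          · rw [h0]
            simp
          · exact (Polynomial.natDegree_lt_iff_degree_lt h0).2 this
        have hj' : j ≤ t := by
          rw [Finset.mem_range] at hj
          omega
        rw [MvPolynomial.smul_eq_C_mul]
        refine (MvPolynomial.degreeOf_C_mul_le _ _ _).trans ?_
        refine (MvPolynomial.degreeOf_pow_le _ _ _).trans ?_
        have : MvPolynomial.degreeOf i (MvPolynomial.X (R := AlgebraicClosure K) (0 : Fin 2)) ≤ 1 := by
          rw [MvPolynomial.degreeOf_X]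
          split_ifs <;> simp
        calc j * _ ≤ j * 1 := Nat.mul_le_mul_left _ this
          _ ≤ t := by omega
      · intro z
        change Polynomial.eval (coords z.1 0) (p : Polynomial (AlgebraicClosure K)) = _
        rw [Polynomial.aeval_def, Polynomial.hom_eval₂, MvPolynomial.eval_X, Polynomial.eval]
        have h1 : (MvPolynomial.eval (coords z.1)).comp
            (algebraMap (AlgebraicClosure K) (MvPolynomial (Fin 2) (AlgebraicClosure K))) =
              RingHom.id (AlgebraicClosure K) := by
          apply RingHom.ext
          intro x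
          simp
        rw [h1]
  rw [hspan, LinearMap.finrank_range_of_inj (phi_injective β t)]
  rw [LinearEquiv.finrank_eq (Polynomial.degreeLTEquiv (AlgebraicClosure K) (t + 1))]
  simp

theorem curve_degree (β : (AlgebraicClosure K)ˣ) : HasDegree (curve β) 1 1 := by
  unfold HasDegree
  have h : ∀ᶠ t : ℕ in atTop, 1 + 1 / (t : ℝ) =
      (Nat.factorial 1 : ℝ) * (hilbert (curve β) t : ℝ) / (t : ℝ) ^ 1 := by
    filter_upwards [eventually_ge_atTop 1] with t ht
    have ht' : (0 : ℝ) < t := by exact_mod_cast ht
    rw [hilbert_curve]
    push_cast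
    simp only [Nat.factorial_one, Nat.cast_one, pow_one, one_mul]
    field_simp
  apply Tendsto.congr' h
  have := (tendsto_one_div_atTop_nhds_zero_nat (𝕜 := ℝ)).const_add 1
  simpa using this

theorem obstruction_nonneg {n : ℕ} (L : IntermediateField K (AlgebraicClosure K))
    (V : Set (Pts K n)) :
    ∀ r ∈ {r : ℝ | ∃ (Z : Set (Pts K n)) (d : ℕ) (D : ℝ), IsClosedOver L Z ∧ Z ≠ Set.univ ∧
      IsEquidimensional Z d ∧ V ⊆ Z ∧ HasDegree Z d D ∧ r = D ^ (1 / ((n : ℝ) - (d : ℝ)))},
      0 ≤ r := by
  rintro r ⟨Z, d, D, -, -, -, -, hD, rfl⟩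
  apply Real.rpow_nonneg
  refine ge_of_tendsto' hD ?_
  intro t
  positivity

theorem obstruction_le (L : IntermediateField K (AlgebraicClosure K)) (β : (AlgebraicClosure K)ˣ)
    (hβ : (β : AlgebraicClosure K) ∈ L) (V : Set (Pts K 2)) (hV : V ⊆ curve β) :
    obstructionIndex L V ≤ 1 := by
  unfold obstructionIndex
  apply csInf_le ⟨0, obstruction_nonneg L V⟩
  refine ⟨curve β, 1, 1, curve_closed β L hβ, curve_ne_univ β, curve_equidim β, hV,
    curve_degree β, ?_⟩
  rw [Real.one_rpow]

theorem height_nonneg {n : ℕ} (x : Pts K n) : 0 ≤ height x := by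
  unfold height
  apply Finset.sum_nonneg
  intro i _
  unfold NumberField.absLogHeight₁ NumberField.absMulHeight₁
  split_ifs with h
  · have : FiniteDimensional ℚ (IntermediateField.adjoin ℚ {coords x i}) :=
      IntermediateField.adjoin.finiteDimensional h
    have : NumberField (IntermediateField.adjoin ℚ {coords x i}) := {}
    apply Real.log_nonneg
    apply Real.one_le_rpow (Height.one_le_mulHeight₁ _)
    positivity
  · simp

theorem essentialMinimum_le (P : Pts K 2) : essentialMinimum ({P} : Set (Pts K 2)) ≤ height P := by
  unfold essentialMinimum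
  apply csInf_le
  · refine ⟨0, ?_⟩
    intro θ hθ
    by_contra hneg
    push Not at hneg
    have hempty : {x ∈ ({P} : Set (Pts K 2)) | height x ≤ θ} = ∅ := by
      ext x
      simp only [Set.mem_ofPred_eq, Set.mem_empty_iff_false, iff_false, not_and, not_le]
      intro _
      exact hneg.trans_le (height_nonneg x)
    have hc : IsZariskiClosed (∅ : Set (Pts K 2)) := by
      refine ⟨{1}, ?_⟩
      ext x
      simp
    have := hθ.2 ∅ hc (by rw [hempty])
    exact this rfl
  · refine ⟨fun x hx => hx.1, ?_⟩
    intro Z _ hZ x hx
    apply hZ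
    rw [Set.mem_singleton_iff] at hx
    rw [hx]
    exact ⟨rfl, le_rfl⟩

end

end Pool.Agent.N901.Remond
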