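import Mathlib
import Pool.Agent.N901.RemondDefs

namespace Pool.Agent.N901.Remond

noncomputable section

variable {K : Type*} [Field K] [NumberField K] {n : ℕ}

/-- A proper closed subgroup of `G_m^n` lies in the kernel of a nontrivial character. -/
theorem exists_character (B : Subgroup (Pts K n)) (hB : IsZariskiClosed (B : Set (Pts K n)))
    (hne : (B : Set (Pts K n)) ≠ Set.univ) :
    ∃ a : Fin n → ℤ, a ≠ 0 ∧ ∀ b ∈ B, ∏ i, b i ^ a i = 1 := by
  classical
  obtain ⟨S, hS⟩ := hB
  obtain ⟨y, hy⟩ := (Set.ne_univ_iff_exists_notMem _).1 hne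
  rw [hS] at hy
  simp only [Set.mem_ofPred_eq, not_forall] at hy
  obtain ⟨f, hf, hfy⟩ := hy
  -- the characters
  let χ : (Fin n →₀ ℕ) → (B →* AlgebraicClosure K) := fun m =>
    { toFun := fun b => ∏ i, coords (b : Pts K n) i ^ m i
      map_one' := by simp [coords]
      map_mul' := by
        intro b c
        simp [coords, mul_pow, Finset.prod_mul_distrib] }
  by_cases hinj : Set.InjOn χ (f.support : Set (Fin n →₀ ℕ))
  · exfalso
    have hli := linearIndependent_monoidHom B (AlgebraicClosure K)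
    have hli2 : LinearIndependent (AlgebraicClosure K)
        (fun m : f.support => ((χ m : B →* AlgebraicClosure K) : B → AlgebraicClosure K)) := by
      have := hli.comp (fun m : f.support => χ m) (by
        intro a b hab
        exact Subtype.ext (hinj a.2 b.2 hab))
      exact this
    rw [Fintype.linearIndependent_iff] at hli2
    have hz := hli2 (fun m => algebraMap _ (AlgebraicClosure K) (f.coeff m)) (by
      funext b
      have hb : (b : Pts K n) ∈ (B : Set (Pts K n)) := b.2
      rw [hS] at hb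
      have hb2 := hb f hf
      rw [MvPolynomial.aeval_def, MvPolynomial.eval₂_eq'] at hb2
      simp only [Finset.sum_apply, Pi.smul_apply, smul_eq_mul, Pi.zero_apply]
      rw [← hb2]
      exact Finset.sum_coe_sort f.support (fun m =>
        (algebraMap (⊤ : IntermediateField K (AlgebraicClosure K)) (AlgebraicClosure K))
          (MvPolynomial.coeff m f) * ∏ i, coords (b : Pts K n) i ^ m i))
    apply hfy
    rw [MvPolynomial.aeval_def, MvPolynomial.eval₂_eq']
    apply Finset.sum_eq_zero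
    intro m hm
    have := hz ⟨m, hm⟩
    simp only at this
    rw [this, zero_mul]
  · simp only [Set.InjOn, not_forall] at hinj
    obtain ⟨m, -, m', -, heq, hne'⟩ := hinj
    refine ⟨fun i => (m i : ℤ) - (m' i : ℤ), ?_, ?_⟩
    · intro h0
      apply hne'
      ext i
      have := congrFun h0 i
      simp only [Pi.zero_apply] at this
      omega
    · intro b hb
      have h1 := DFunLike.congr_fun heq ⟨b, hb⟩
      have h2 : (∏ i, coords b i ^ m i) = ∏ i, coords b i ^ m' i := h1
      have h3 : (∏ i, b i ^ m i) = ∏ i, b i ^ m' i := by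
        apply Units.ext
        simpa [coords] using h2
      simp only [zpow_sub, zpow_natCast, Finset.prod_mul_distrib, h3, Finset.prod_inv_distrib]
      simp

/-- The unit `2`. -/
def two (K : Type*) [Field K] [NumberField K] : (AlgebraicClosure K)ˣ := Units.mk0 2 (by norm_num)

/-- The group `{(g, 1) : g^k ∈ 2^ℤ for some k ≥ 1}`. -/
def exGroup (K : Type*) [Field K] [NumberField K] : Subgroup (Pts K 2) where
  carrier := {x | x 1 = 1 ∧ ∃ k : ℕ, 1 ≤ k ∧ ∃ j : ℤ, (x 0) ^ k = two K ^ j}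
  one_mem' := ⟨rfl, 1, le_rfl, 0, by simp⟩
  mul_mem' := by
    rintro x y ⟨hx, k, hk, j, hj⟩ ⟨hy, l, hl, i, hi⟩
    refine ⟨by simp [hx, hy], k * l, Nat.mul_pos hk hl, j * l + i * k, ?_⟩
    rw [Pi.mul_apply, mul_pow, pow_mul, hj, mul_comm k l, pow_mul, hi, zpow_add, zpow_mul,
      zpow_mul, zpow_natCast, zpow_natCast]
  inv_mem' := by
    rintro x ⟨hx, k, hk, j, hj⟩
    refine ⟨by simp [hx], k, hk, -j, ?_⟩
    rw [Pi.inv_apply, inv_pow, hj, zpow_neg]

theorem mem_saturation (γ : Pts K 2) (h : γ ∈ saturation (exGroup K)) :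
    ∃ k : ℕ, 1 ≤ k ∧ ∃ j : ℤ, (γ 0) ^ k = two K ^ j ∧ (γ 1) ^ k = 1 := by
  obtain ⟨m, hm, h1, k, hk, j, hj⟩ := h
  refine ⟨m * k, Nat.mul_pos hm hk, j, ?_, ?_⟩
  · rw [pow_mul]
    exact hj
  · rw [pow_mul]
    have : (γ 1) ^ m = 1 := h1
    rw [this, one_pow]

/-- No nontrivial relation `3^u 2^v = 2^w` unless `u = 0`. -/
theorem three_two (u v : ℤ) (h : (3 : AlgebraicClosure K) ^ u = (2 : AlgebraicClosure K) ^ v) :
    u = 0 ∧ v = 0 := by
  have h1 : (3 : ℚ) ^ u = (2 : ℚ) ^ v := by
    apply (algebraMap ℚ (AlgebraicClosure K)).injective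
    rw [map_zpow₀, map_zpow₀]
    simpa using h
  have h3 : padicValRat 3 ((3 : ℚ) ^ u) = padicValRat 3 ((2 : ℚ) ^ v) := by rw [h1]
  have e1 : padicValRat 3 ((3 : ℚ) ^ u) = u * padicValRat 3 (3 : ℚ) := by
    exact padicValRat.zpow 3
  have e2 : padicValRat 3 ((2 : ℚ) ^ v) = v * padicValRat 3 (2 : ℚ) := by
    exact padicValRat.zpow 2
  have f1 : padicValRat 3 (3 : ℚ) = 1 := by
    have := padicValRat.self (p := 3) (by norm_num)
    exact_mod_cast this
  have f2 : padicValRat 3 (2 : ℚ) = 0 := by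
    have : padicValRat 3 ((2 : ℕ) : ℚ) = (padicValNat 3 2 : ℤ) := padicValRat.of_nat
    have h0 : padicValNat 3 2 = 0 := padicValNat.eq_zero_of_not_dvd (by norm_num)
    rw [h0] at this
    exact_mod_cast this
  have hu : u = 0 := by
    rw [e1, e2, f1, f2] at h3
    simpa using h3
  refine ⟨hu, ?_⟩
  rw [hu, zpow_zero] at h1
  have : (2 : ℚ) ^ (0 : ℤ) = (2 : ℚ) ^ v := by rw [zpow_zero]; exact h1
  exact (zpow_right_injective₀ (by norm_num) (by norm_num) this).symm

theorem transverse_point (P : Pts K 2) (m : ℕ)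
    (h0 : (coords P 0) ^ m = 3) (h1 : (coords P 1) ^ m = 2) :
    IsTransverse (exGroup K) {P} := by
  rintro T ⟨B, hB, γ, hγ, rfl⟩ hT hPT
  have hBne : (B : Set (Pts K 2)) ≠ Set.univ := by
    intro hBu
    apply hT
    ext x
    simp only [Set.mem_ofPred_eq, Set.mem_univ, iff_true]
    refine ⟨x * γ⁻¹, ?_, by simp⟩
    have : (x * γ⁻¹) ∈ (B : Set (Pts K 2)) := by rw [hBu]; trivial
    exact this
  obtain ⟨a, ha, hab⟩ := exists_character B hB.1 hBne
  obtain ⟨b, hb, hPb⟩ := hPT rfl
  have hb1 := hab b hb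
  obtain ⟨k, hk, j, hj, hj1⟩ := mem_saturation γ hγ
  have hrel : (P 0) ^ a 0 * (P 1) ^ a 1 = (γ 0) ^ a 0 * (γ 1) ^ a 1 := by
    rw [hPb]
    simp only [Fin.prod_univ_two] at hb1
    simp only [Pi.mul_apply, mul_zpow]
    rw [mul_mul_mul_comm, hb1, one_mul]
  -- raise to the power `m * k`
  have hP0 : (P 0) ^ m = Units.mk0 (3 : AlgebraicClosure K) (by norm_num) := by
    apply Units.ext
    simpa [coords] using h0
  have hP1 : (P 1) ^ m = two K := by
    apply Units.ext
    simpa [coords, two] using h1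
  have hrel2 : ((P 0) ^ m) ^ (a 0 * k) * ((P 1) ^ m) ^ (a 1 * k) =
      ((γ 0) ^ k) ^ (a 0 * m) * ((γ 1) ^ k) ^ (a 1 * m) := by
    have := congrArg (fun z => z ^ ((m : ℤ) * k)) hrel
    simp only [mul_zpow, ← zpow_mul] at this
    simp only [← zpow_natCast, ← zpow_mul]
    convert this using 2
    all_goals (congr 1; ring)
  rw [hP0, hP1, hj, hj1, one_zpow, mul_one, ← zpow_mul] at hrel2
  have hrel3 : (3 : AlgebraicClosure K) ^ (a 0 * k) =
      (2 : AlgebraicClosure K) ^ (j * (a 0 * m) - a 1 * k) := by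
    rw [zpow_sub₀ (by norm_num)]
    have := congrArg (fun z : (AlgebraicClosure K)ˣ => (z : AlgebraicClosure K)) hrel2
    simp only [Units.val_mul, Units.val_zpow_eq_zpow_val, Units.val_mk0, two] at this
    rw [← this]
    field_simp
  obtain ⟨e1, e2⟩ := three_two _ _ hrel3
  have hk' : (k : ℤ) ≠ 0 := by omega
  have a0 : a 0 = 0 := by
    rcases mul_eq_zero.1 e1 with h | h
    · exact h
    · exact absurd h hk'
  have a1 : a 1 = 0 := by
    rw [a0] at e2
    simp only [zero_mul, mul_zero, zero_sub, neg_eq_zero] at e2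
    rcases mul_eq_zero.1 e2 with h | h
    · exact h
    · exact absurd h hk'
  apply ha
  funext i
  fin_cases i
  · exact a0
  · exact a1

end

end Pool.Agent.N901.Remond
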