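import Mathlib

namespace Pool.Agent.N901.Remond

open NumberField IntermediateField

/-- The multiplicative height of a positive integer over a number field. -/
theorem mulHeight_nat (F : Type*) [Field F] [NumberField F] (q : ℕ) (hq : 1 ≤ q) :
    Height.mulHeight₁ (q : F) = (q : ℝ) ^ (Module.finrank ℚ F) := by
  rw [NumberField.mulHeight₁_eq]
  have h1 : ∀ v : FinitePlace F, max (v (q : F)) 1 = 1 := by
    intro v
    apply max_eq_right
    have hv : IsNonarchimedean (v ·) := FinitePlace.add_le v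
    exact IsNonarchimedean.apply_natCast_le_one hv
  have h2 : ∀ v : InfinitePlace F, max (v (q : F)) 1 = (q : ℝ) := by
    intro v
    rw [InfinitePlace.map_natCast]
    apply max_eq_left
    exact_mod_cast hq
  simp only [h1, h2, finprod_one, mul_one]
  rw [Finset.prod_pow_eq_pow_sum, InfinitePlace.sum_mult_eq]

theorem absLogHeight_root {F : Type*} [Field F] [CharZero F] (x : F) (m : ℕ) (hm : 1 ≤ m)
    (q : ℕ) (hq : 1 ≤ q) (h : x ^ m = q) :
    NumberField.absLogHeight₁ x = Real.log q / m := by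
  have hint : IsIntegral ℚ x := by
    refine ⟨Polynomial.X ^ m - Polynomial.C (q : ℚ), ?_, ?_⟩
    · exact Polynomial.monic_X_pow_sub_C _ (by omega)
    · simp [h]
  unfold NumberField.absLogHeight₁ NumberField.absMulHeight₁
  rw [dif_pos hint]
  haveI : FiniteDimensional ℚ ℚ⟮x⟯ := adjoin.finiteDimensional hint
  haveI : NumberField ℚ⟮x⟯ := {}
  have h3 : Height.mulHeight₁ (AdjoinSimple.gen ℚ x) ^ m = (q : ℝ) ^ (Module.finrank ℚ ℚ⟮x⟯) := by
    rw [← Height.mulHeight₁_pow, ← mulHeight_nat ℚ⟮x⟯ q hq]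
    congr 1
    apply Subtype.ext
    simp [h]
  have h4 : (m : ℝ) * Real.log (Height.mulHeight₁ (AdjoinSimple.gen ℚ x)) =
      (Module.finrank ℚ ℚ⟮x⟯ : ℝ) * Real.log q := by
    rw [← Real.log_pow, h3, Real.log_pow]
  have hd : (0 : ℝ) < (Module.finrank ℚ ℚ⟮x⟯ : ℝ) := by
    exact_mod_cast Module.finrank_pos
  have hm' : (0 : ℝ) < m := by exact_mod_cast hm
  rw [Real.log_rpow (Height.mulHeight₁_pos _)]
  field_simp
  linarith

end Pool.Agent.N901.Remond
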