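import Mathlib
import Pool.Agent.N901.RemondDefs
import Pool.Agent.N901.RemondHeight
import Pool.Agent.N901.RemondGroup
import Pool.Agent.N901.RemondCurve
import Pool.Agent.N901.RemondDegree

namespace Pool.Agent.N901.Remond

open Filter Topology

set_option linter.unusedSectionVars false

noncomputable section

/-- The group of the example is not a Lehmer group. -/
theorem not_lehmer (K : Type*) [Field K] [NumberField K] : ¬ IsLehmerGroup (exGroup K) := by
  rintro ⟨c, hc, H⟩
  -- choose `m` large
  obtain ⟨m, hm⟩ := exists_nat_gt ((Real.log 3 + Real.log 2) / c)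
  have hpos : 0 < Real.log 3 + Real.log 2 := by
    have h2 := Real.log_pos (x := 2) (by norm_num)
    have h3 := Real.log_pos (x := 3) (by norm_num)
    linarith
  have hm0 : (0 : ℝ) < m := (div_pos hpos hc).trans hm
  have hm1 : 1 ≤ m := by exact_mod_cast hm0
  obtain ⟨a, ha⟩ := IsAlgClosed.exists_pow_nat_eq (3 : AlgebraicClosure K) (n := m) (by omega)
  obtain ⟨b, hb⟩ := IsAlgClosed.exists_pow_nat_eq (2 : AlgebraicClosure K) (n := m) (by omega)
  have ha0 : a ≠ 0 := by
    rintro rfl
    rw [zero_pow (by omega)] at ha
    norm_num at ha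
  have hb0 : b ≠ 0 := by
    rintro rfl
    rw [zero_pow (by omega)] at hb
    norm_num at hb
  let P : Pts K 2 := ![Units.mk0 a ha0, Units.mk0 b hb0]
  have hP0 : coords P 0 = a := rfl
  have hP1 : coords P 1 = b := rfl
  have hH := H {P} (point_subvariety P) (by
    intro hu
    have h1 : pt 1 1 ∈ ({P} : Set (Pts K 2)) := by rw [hu]; trivial
    have h2 : pt 1 (Units.mk0 2 (by norm_num)) ∈ ({P} : Set (Pts K 2)) := by rw [hu]; trivial
    have h3 := pt_injective 1 ((Set.mem_singleton_iff.1 h1).trans (Set.mem_singleton_iff.1 h2).symm)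
    have h4 : (1 : AlgebraicClosure K) = 2 := congrArg Units.val h3
    norm_num at h4)
    (transverse_point P m (by rw [hP0]; exact ha) (by rw [hP1]; exact hb))
  have hmem : b ∈ fieldOf (exGroup K) := by
    apply IntermediateField.subset_adjoin
    refine ⟨![Units.mk0 b hb0, 1], ⟨rfl, m, hm1, 1, ?_⟩, 0, rfl⟩
    apply Units.ext
    simpa [two] using hb
  have hω : obstructionIndex (fieldOf (exGroup K)) ({P} : Set (Pts K 2)) ≤ 1 := by
    apply obstruction_le _ (Units.mk0 b hb0) hmem
    intro x hx
    rw [Set.mem_singleton_iff] at hx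
    rw [hx]
    rfl
  have hω0 : 0 ≤ obstructionIndex (fieldOf (exGroup K)) ({P} : Set (Pts K 2)) :=
    Real.sInf_nonneg (obstruction_nonneg _ _)
  have hh : height P = (Real.log 3 + Real.log 2) / m := by
    unfold height
    rw [Fin.sum_univ_two, hP0, hP1, absLogHeight_root a m hm1 3 (by norm_num) (by exact_mod_cast ha),
      absLogHeight_root b m hm1 2 (by norm_num) (by exact_mod_cast hb)]
    push_cast
    ring
  have hlt : height P < c := by
    rw [hh, div_lt_iff₀ hm0]
    rw [div_lt_iff₀ hc] at hm
    linarith
  have h1 : obstructionIndex (fieldOf (exGroup K)) ({P} : Set (Pts K 2)) *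
      essentialMinimum ({P} : Set (Pts K 2)) ≤ height P := by
    calc _ ≤ obstructionIndex (fieldOf (exGroup K)) ({P} : Set (Pts K 2)) * height P :=
          mul_le_mul_of_nonneg_left (essentialMinimum_le P) hω0
      _ ≤ 1 * height P := mul_le_mul_of_nonneg_right hω (height_nonneg P)
      _ = height P := one_mul _
  linarith

/-- The group of the example has rank one. -/
theorem rank_exGroup (K : Type*) [Field K] [NumberField K] : rank (exGroup K) = 1 := by
  unfold rank
  let g0 : exGroup K := ⟨![two K, 1], rfl, 1, le_rfl, 1, by simp⟩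
  have halg : Algebra.IsAlgebraic ℚ (AlgebraicClosure K) := Algebra.IsAlgebraic.trans ℚ K _
  let σ : AlgebraicClosure K →ₐ[ℚ] ℂ := IsAlgClosed.lift
  let ℓ : Additive (exGroup K) →+ ℝ :=
    { toFun := fun g => Real.log ‖σ (coords (g.toMul : Pts K 2) 0)‖
      map_zero' := by simp [coords]
      map_add' := by
        intro g h
        have e : coords ((g + h).toMul : Pts K 2) 0 =
          coords (g.toMul : Pts K 2) 0 * coords (h.toMul : Pts K 2) 0 := by simp [coords]
        rw [e, map_mul, norm_mul, Real.log_mul]
        · rw [norm_ne_zero_iff, map_ne_zero]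
          exact Units.ne_zero _
        · rw [norm_ne_zero_iff, map_ne_zero]
          exact Units.ne_zero _ }
  let Φ : TensorProduct ℤ ℚ (Additive (exGroup K)) →ₗ[ℤ] ℝ :=
    TensorProduct.lift
      { toFun := fun q =>
          { toFun := fun g => (q : ℝ) * ℓ g
            map_add' := by
              intro g h
              rw [map_add]
              ring
            map_smul' := by
              intro k g
              rw [map_zsmul]
              simp
              ring }
        map_add' := by
          intro p q
          ext g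
          simp
          ring
        map_smul' := by
          intro k q
          ext g
          simp
          ring }
  apply rank_eq_one (TensorProduct.tmul ℤ (1 : ℚ) (Additive.ofMul g0))
  · intro h0
    have h1 : Φ (TensorProduct.tmul ℤ (1 : ℚ) (Additive.ofMul g0)) = 0 := by rw [h0, map_zero]
    have h2 : Φ (TensorProduct.tmul ℤ (1 : ℚ) (Additive.ofMul g0)) = Real.log 2 := by
      change (((1 : ℚ) : ℝ) * Real.log ‖σ (coords (g0 : Pts K 2) 0)‖) = _
      have : coords (g0 : Pts K 2) 0 = 2 := rfl
      rw [this, map_ofNat]
      simp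
    rw [h2] at h1
    have := Real.log_pos (x := 2) (by norm_num)
    linarith
  · intro w
    induction w using TensorProduct.induction_on with
    | zero => exact ⟨0, by simp⟩
    | tmul q g =>
      obtain ⟨h1, k, hk, j, hj⟩ := (g.toMul).2
      have hrel : (k : ℤ) • g = j • (Additive.ofMul g0) := by
        apply Additive.toMul.injective
        apply Subtype.ext
        funext i
        fin_cases i
        · simpa [g0] using hj
        · have h1' : ((g.toMul : exGroup K) : Pts K 2) 1 = 1 := h1
          simp [g0, h1']
      have hk' : (k : ℚ) ≠ 0 := by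
        have : (1 : ℚ) ≤ k := by exact_mod_cast hk
        linarith
      refine ⟨q / k * j, ?_⟩
      rw [TensorProduct.smul_tmul', smul_eq_mul, mul_one]
      have e1 : (q / k * j : ℚ) = j • (q / k : ℚ) := by
        rw [zsmul_eq_mul]
        ring
      have e2 : q = (k : ℤ) • (q / k : ℚ) := by
        rw [zsmul_eq_mul]
        push_cast
        field_simp
      rw [e1, TensorProduct.smul_tmul, ← hrel]
      exact (TensorProduct.smul_tmul (k : ℤ) (q / k : ℚ) g).symm.trans (by rw [← e2])
    | add x y hx hy =>
      obtain ⟨a, ha⟩ := hx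
      obtain ⟨b, hb⟩ := hy
      exact ⟨a + b, by rw [add_smul, ha, hb]⟩

end

end Pool.Agent.N901.Remond
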